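import Mathlib

/-! # Polynomials in two variables vanishing on a germ -/

set_option autoImplicit false

namespace Pool.Agent.Work.MP_7da6af_nt.Rc

open Polynomial Filter Topology

/-- `R` vanishes on the germ -/
def Van (Z W : ℂ → ℂ) (R : Polynomial (Polynomial ℂ)) : Prop :=
  ∀ᶠ s in 𝓝 (0 : ℂ), R.evalEval (Z s) (W s) = 0

theorem evalEval_monomial (x y : ℂ) (n : ℕ) (c : Polynomial ℂ) :
    (monomial n c).evalEval x y = c.eval x * y ^ n := by
  unfold evalEval
  rw [eval_monomial, eval_mul, eval_pow, eval_C]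

theorem evalEval_C' (x y : ℂ) (c : Polynomial ℂ) :
    (C c).evalEval x y = c.eval x := evalEval_C x y c

theorem analyticAt_evalEval {Z W : ℂ → ℂ} {s0 : ℂ} (hZ : AnalyticAt ℂ Z s0)
    (hW : AnalyticAt ℂ W s0) (R : Polynomial (Polynomial ℂ)) :
    AnalyticAt ℂ (fun s => R.evalEval (Z s) (W s)) s0 := by
  induction R using Polynomial.induction_on' with
  | add p q hp hq =>
    simp only [evalEval_add]
    exact hp.add hq
  | monomial n c =>
    simp only [evalEval_monomial]
    refine AnalyticAt.mul ?_ (hW.pow n)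
    have := hZ.aeval_polynomial c
    simpa [Polynomial.coe_aeval_eq_eval] using this

section

variable {Z W : ℂ → ℂ}

theorem van_add {R S : Polynomial (Polynomial ℂ)} (h1 : Van Z W R) (h2 : Van Z W S) :
    Van Z W (R + S) := by
  filter_upwards [h1, h2] with s a b
  rw [evalEval_add, a, b, add_zero]

theorem van_sub {R S : Polynomial (Polynomial ℂ)} (h1 : Van Z W R) (h2 : Van Z W S) :
    Van Z W (R - S) := by
  filter_upwards [h1, h2] with s a b
  rw [evalEval_sub, a, b, sub_zero]

theorem van_mul_left {R : Polynomial (Polynomial ℂ)} (S : Polynomial (Polynomial ℂ))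
    (h1 : Van Z W R) : Van Z W (S * R) := by
  filter_upwards [h1] with s a
  rw [evalEval_mul, a, mul_zero]

theorem van_or (hZ : AnalyticAt ℂ Z 0) (hW : AnalyticAt ℂ W 0)
    {R S : Polynomial (Polynomial ℂ)} (h : Van Z W (R * S)) : Van Z W R ∨ Van Z W S := by
  rcases (analyticAt_evalEval hZ hW R).eventually_eq_zero_or_eventually_ne_zero with h1 | h1
  · exact Or.inl h1
  rcases (analyticAt_evalEval hZ hW S).eventually_eq_zero_or_eventually_ne_zero with h2 | h2
  · exact Or.inr h2
  exfalso
  obtain ⟨s, ⟨h3, h4⟩, h5⟩ := ((h1.and h2).and (h.filter_mono nhdsWithin_le_nhds)).exists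
  rw [evalEval_mul] at h5
  exact mul_ne_zero h3 h4 h5

/-- the first coordinate is not constant -/
theorem van_C (hZ : AnalyticAt ℂ Z 0) (hZd : deriv Z 0 ≠ 0) {c : Polynomial ℂ}
    (h : Van Z W (C c)) : c = 0 := by
  by_contra hc
  have h1 : map Z (𝓝 0) = 𝓝 (Z 0) := hZ.hasStrictDerivAt.map_nhds_eq hZd
  have h2 : ∀ᶠ y in 𝓝 (Z 0), c.eval y = 0 := by
    rw [← h1, eventually_map]
    filter_upwards [h] with s hs
    rwa [evalEval_C'] at hs
  have h3 : {y : ℂ | c.eval y = 0}.Finite := by
    refine (c.roots.toFinset).finite_toSet.subset ?_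
    intro y hy
    simp only [Finset.mem_coe, Multiset.mem_toFinset]
    rw [Polynomial.mem_roots hc]
    exact hy
  have h4 : {y : ℂ | c.eval y = 0} ∈ 𝓝 (Z 0) := h2
  exact (infinite_of_mem_nhds (Z 0) h4) h3

/-- the second coordinate is not constant -/
theorem van_X_sub (hWd : deriv W 0 ≠ 0) (c : ℂ) : ¬ Van Z W (X - C (C c)) := by
  intro h
  apply hWd
  have h1 : W =ᶠ[𝓝 0] fun _ => c := by
    filter_upwards [h] with s hs
    rw [evalEval_sub, evalEval_X, evalEval_C', eval_C] at hs
    exact sub_eq_zero.mp hs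
  rw [h1.deriv_eq]
  simp

/-- a nonzero polynomial of least degree in the second variable -/
structure IsMin (Z W : ℂ → ℂ) (P : Polynomial (Polynomial ℂ)) : Prop where
  ne : P ≠ 0
  van : Van Z W P
  le : ∀ G, G ≠ 0 → Van Z W G → P.natDegree ≤ G.natDegree

theorem exists_min (h : ∃ R, R ≠ 0 ∧ Van Z W R) : ∃ P, IsMin Z W P := by
  classical
  have h1 : ∃ d, ∃ R, R ≠ 0 ∧ Van Z W R ∧ R.natDegree = d := by
    obtain ⟨R, hR, hR'⟩ := h
    exact ⟨_, R, hR, hR', rfl⟩
  obtain ⟨P, hP, hP', hd⟩ := Nat.find_spec h1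
  refine ⟨P, hP, hP', fun G hG hG' => ?_⟩
  rw [hd]
  exact Nat.find_min' h1 ⟨G, hG, hG', rfl⟩

variable {P : Polynomial (Polynomial ℂ)}

theorem IsMin.pos (hP : IsMin Z W P) (hZ : AnalyticAt ℂ Z 0) (hZd : deriv Z 0 ≠ 0) :
    0 < P.natDegree := by
  rw [Nat.pos_iff_ne_zero]
  intro h0
  have h1 := Polynomial.eq_C_of_natDegree_eq_zero h0
  have h2 := hP.van
  rw [h1] at h2
  have h3 := van_C hZ hZd h2
  apply hP.ne
  rw [h1, h3, C_0]

/-- every polynomial vanishing on the germ is a multiple of the minimal one, up to a polynomial in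
the first variable -/
theorem IsMin.dvd (hP : IsMin Z W P) (G : Polynomial (Polynomial ℂ)) (hG : Van Z W G) :
    ∃ c : Polynomial ℂ, c ≠ 0 ∧ P ∣ C c * G := by
  induction h : G.natDegree using Nat.strong_induction_on generalizing G with
  | _ n ih =>
    by_cases hG0 : G = 0
    · exact ⟨1, one_ne_zero, by simp [hG0]⟩
    have hd : P.natDegree ≤ G.natDegree := hP.le G hG0 hG
    have hlP : P.leadingCoeff ≠ 0 := leadingCoeff_ne_zero.mpr hP.ne
    have hlG : G.leadingCoeff ≠ 0 := leadingCoeff_ne_zero.mpr hG0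
    set A := C P.leadingCoeff * G with hA
    set B := (C G.leadingCoeff * X ^ (G.natDegree - P.natDegree)) * P with hB
    have hA0 : A ≠ 0 := mul_ne_zero (C_ne_zero.mpr hlP) hG0
    have hCX : (C G.leadingCoeff * X ^ (G.natDegree - P.natDegree)).natDegree =
        G.natDegree - P.natDegree := natDegree_C_mul_X_pow _ _ hlG
    have hCX0 : (C G.leadingCoeff * X ^ (G.natDegree - P.natDegree)) ≠ 0 := by
      rw [Ne, C_mul_X_pow_eq_monomial, monomial_eq_zero_iff]
      exact hlG
    have hB0 : B ≠ 0 := mul_ne_zero hCX0 hP.ne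
    have hdA : A.natDegree = G.natDegree := natDegree_C_mul hlP
    have hdB : B.natDegree = G.natDegree := by
      rw [hB, natDegree_mul hCX0 hP.ne, hCX]
      omega
    have hdeg : A.degree = B.degree := by
      rw [degree_eq_natDegree hA0, degree_eq_natDegree hB0, hdA, hdB]
    have hlc : A.leadingCoeff = B.leadingCoeff := by
      rw [hA, hB, leadingCoeff_mul, leadingCoeff_mul, leadingCoeff_C, leadingCoeff_C_mul_X_pow]
      ring
    have hlt := degree_sub_lt_left hdeg hA0 hlc
    by_cases h0 : A - B = 0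
    · refine ⟨P.leadingCoeff, hlP, ?_⟩
      have h1 : A = B := sub_eq_zero.mp h0
      rw [hA, hB] at h1
      exact ⟨_, h1.trans (mul_comm _ _)⟩
    · have hn : (A - B).natDegree < n := by
        rw [degree_eq_natDegree h0, degree_eq_natDegree hA0, hdA, h] at hlt
        exact_mod_cast hlt
      obtain ⟨c, hc, q, hq⟩ := ih _ hn (A - B)
        (van_sub (van_mul_left _ hG) (van_mul_left _ hP.van)) rfl
      refine ⟨c * P.leadingCoeff, mul_ne_zero hc hlP, q + C c *
        (C G.leadingCoeff * X ^ (G.natDegree - P.natDegree)), ?_⟩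
      rw [C_mul]
      rw [mul_sub, hA, hB] at hq
      linear_combination hq

theorem IsMin.irreducible (hP : IsMin Z W P) (hZ : AnalyticAt ℂ Z 0) (hW : AnalyticAt ℂ W 0)
    (hZd : deriv Z 0 ≠ 0) :
    Irreducible (P.map (algebraMap (Polynomial ℂ) (FractionRing (Polynomial ℂ)))) := by
  set ι := algebraMap (Polynomial ℂ) (FractionRing (Polynomial ℂ)) with hι
  have hinj : Function.Injective ι := IsFractionRing.injective _ _
  have hdP := hP.pos hZ hZd
  have hdP' : (P.map ι).natDegree = P.natDegree := natDegree_map_eq_of_injective hinj P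
  refine ⟨fun hu => ?_, fun A B hAB => ?_⟩
  · have := natDegree_eq_zero_of_isUnit hu
    omega
  · by_contra hcon
    push Not at hcon
    obtain ⟨hA, hB⟩ := hcon
    have hP0 : P.map ι ≠ 0 := by
      rw [Ne, Polynomial.map_eq_zero_iff hinj]
      exact hP.ne
    have hA0 : A ≠ 0 := by
      rintro rfl
      rw [zero_mul] at hAB
      exact hP0 hAB
    have hB0 : B ≠ 0 := by
      rintro rfl
      rw [mul_zero] at hAB
      exact hP0 hAB
    have hpos : ∀ D : Polynomial (FractionRing (Polynomial ℂ)), D ≠ 0 → ¬ IsUnit D →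
        0 < D.natDegree := by
      intro D hD hu
      rw [Nat.pos_iff_ne_zero]
      intro h0
      apply hu
      rw [Polynomial.eq_C_of_natDegree_eq_zero h0, isUnit_C]
      refine IsUnit.mk0 _ fun h1 => hD ?_
      rw [Polynomial.eq_C_of_natDegree_eq_zero h0, h1, C_0]
    have hA1 := hpos A hA0 hA
    have hB1 := hpos B hB0 hB
    have hsum : A.natDegree + B.natDegree = P.natDegree := by
      rw [← hdP', hAB, natDegree_mul hA0 hB0]
    obtain ⟨b, hbm, hb⟩ := IsLocalization.integerNormalization_spec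
      (nonZeroDivisors (Polynomial ℂ)) A
    obtain ⟨b', hbm', hb'⟩ := IsLocalization.integerNormalization_spec
      (nonZeroDivisors (Polynomial ℂ)) B
    set A0 := IsLocalization.integerNormalization (nonZeroDivisors (Polynomial ℂ)) A
    set B0 := IsLocalization.integerNormalization (nonZeroDivisors (Polynomial ℂ)) B
    have hb0 : b ≠ 0 := nonZeroDivisors.ne_zero hbm
    have hb0' : b' ≠ 0 := nonZeroDivisors.ne_zero hbm'
    have hsm : ∀ (c : Polynomial ℂ) (D : Polynomial (FractionRing (Polynomial ℂ))),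
        c • D = C (ι c) * D := by
      intro c D
      rw [← Polynomial.smul_eq_C_mul, hι, algebraMap_smul]
    rw [hsm] at hb hb'
    have hne : ∀ c : Polynomial ℂ, c ≠ 0 → C (ι c) ≠ 0 := by
      intro c hc
      rw [Ne, C_eq_zero, map_eq_zero_iff _ hinj]
      exact hc
    have hprod : A0 * B0 = C (b * b') * P := by
      apply Polynomial.map_injective ι hinj
      rw [Polynomial.map_mul, Polynomial.map_mul, Polynomial.map_C, hb, hb', hAB, map_mul, C_mul]
      ring
    have hA0' : A0 ≠ 0 := by
      intro h0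
      rw [h0, Polynomial.map_zero] at hb
      exact mul_ne_zero (hne _ hb0) hA0 hb.symm
    have hB0' : B0 ≠ 0 := by
      intro h0
      rw [h0, Polynomial.map_zero] at hb'
      exact mul_ne_zero (hne _ hb0') hB0 hb'.symm
    have hdA : A0.natDegree = A.natDegree := by
      rw [← natDegree_map_eq_of_injective hinj A0, hb, natDegree_C_mul]
      rw [Ne, map_eq_zero_iff _ hinj]
      exact hb0
    have hdB : B0.natDegree = B.natDegree := by
      rw [← natDegree_map_eq_of_injective hinj B0, hb', natDegree_C_mul]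
      rw [Ne, map_eq_zero_iff _ hinj]
      exact hb0'
    have hvan : Van Z W (A0 * B0) := by
      rw [hprod]
      exact van_mul_left _ hP.van
    rcases van_or hZ hW hvan with h | h
    · have := hP.le A0 hA0' h
      omega
    · have := hP.le B0 hB0' h
      omega

/-- separability -/
theorem IsMin.sep (hP : IsMin Z W P) (hZ : AnalyticAt ℂ Z 0) (hW : AnalyticAt ℂ W 0)
    (hZd : deriv Z 0 ≠ 0) :
    ∃ (α β : Polynomial (Polynomial ℂ)) (r : Polynomial ℂ), r ≠ 0 ∧
      α * P + β * derivative P = C r := by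
  set ι := algebraMap (Polynomial ℂ) (FractionRing (Polynomial ℂ)) with hι
  have hinj : Function.Injective ι := IsFractionRing.injective _ _
  have hchar : CharZero (FractionRing (Polynomial ℂ)) := charZero_of_injective_algebraMap hinj
  obtain ⟨a, b, hab⟩ := (hP.irreducible hZ hW hZd).separable
  obtain ⟨c, hcm, hc⟩ := IsLocalization.integerNormalization_spec
    (nonZeroDivisors (Polynomial ℂ)) a
  obtain ⟨c', hcm', hc'⟩ := IsLocalization.integerNormalization_spec
    (nonZeroDivisors (Polynomial ℂ)) b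
  set a0 := IsLocalization.integerNormalization (nonZeroDivisors (Polynomial ℂ)) a
  set b0 := IsLocalization.integerNormalization (nonZeroDivisors (Polynomial ℂ)) b
  have hc0 : c ≠ 0 := nonZeroDivisors.ne_zero hcm
  have hc0' : c' ≠ 0 := nonZeroDivisors.ne_zero hcm'
  have hsm : ∀ (c : Polynomial ℂ) (D : Polynomial (FractionRing (Polynomial ℂ))),
      c • D = C (ι c) * D := by
    intro c D
    rw [← Polynomial.smul_eq_C_mul, hι, algebraMap_smul]
  rw [hsm] at hc hc'
  refine ⟨C c' * a0, C c * b0, c * c', mul_ne_zero hc0 hc0', ?_⟩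
  apply Polynomial.map_injective ι hinj
  rw [Polynomial.map_add, Polynomial.map_mul, Polynomial.map_mul, Polynomial.map_mul,
    Polynomial.map_mul, Polynomial.map_C, Polynomial.map_C, Polynomial.map_C, hc, hc',
    ← Polynomial.derivative_map, map_mul, C_mul]
  linear_combination (C (ι c) * C (ι c')) * hab

/-- the second coordinate does not take a fixed value identically -/
theorem IsMin.eval_ne (hP : IsMin Z W P) (hZ : AnalyticAt ℂ Z 0) (hW : AnalyticAt ℂ W 0)
    (hWd : deriv W 0 ≠ 0) (c : ℂ) : P.eval (C c) ≠ 0 := by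
  intro h
  obtain ⟨Q, hQ⟩ := Polynomial.dvd_iff_isRoot.mpr h
  have hQ0 : Q ≠ 0 := by
    rintro rfl
    exact hP.ne (by rw [hQ, mul_zero])
  have h1 := hP.van
  rw [hQ] at h1
  rcases van_or hZ hW h1 with h2 | h2
  · exact van_X_sub hWd c h2
  · have h3 := hP.le Q hQ0 h2
    have h4 : P.natDegree = 1 + Q.natDegree := by
      conv_lhs => rw [hQ]
      rw [natDegree_mul (X_sub_C_ne_zero _) hQ0, natDegree_X_sub_C]
    omega

end

/-- the derivative with respect to the first variable -/
noncomputable def dX (R : Polynomial (Polynomial ℂ)) : Polynomial (Polynomial ℂ) :=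
  R.sum fun n c => monomial n (derivative c)

theorem dX_add (R S : Polynomial (Polynomial ℂ)) : dX (R + S) = dX R + dX S := by
  unfold dX
  rw [Polynomial.sum_add_index]
  · intro i
    simp
  · intro i a b
    simp

theorem dX_monomial (n : ℕ) (c : Polynomial ℂ) : dX (monomial n c) = monomial n (derivative c) := by
  unfold dX
  rw [Polynomial.sum_monomial_index]
  simp

/-- the chain rule -/
theorem hasDerivAt_evalEval {Z W : ℂ → ℂ} {s z' w' : ℂ} (hZ : HasDerivAt Z z' s)
    (hW : HasDerivAt W w' s) (R : Polynomial (Polynomial ℂ)) :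
    HasDerivAt (fun s => R.evalEval (Z s) (W s))
      ((dX R).evalEval (Z s) (W s) * z' + (derivative R).evalEval (Z s) (W s) * w') s := by
  induction R using Polynomial.induction_on' with
  | add p q hp hq =>
    have h1 := hp.fun_add hq
    simp only [evalEval_add, dX_add, derivative_add]
    refine h1.congr_deriv ?_
    ring
  | monomial n c =>
    simp only [evalEval_monomial, dX_monomial, derivative_monomial]
    have h1 : HasDerivAt (fun s => c.eval (Z s)) ((derivative c).eval (Z s) * z') s :=
      (c.hasDerivAt (Z s)).comp s hZ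
    have h2 := h1.mul (hW.pow n)
    have h3 : (W ^ n) s = W s ^ n := rfl
    rw [h3] at h2
    refine h2.congr_deriv ?_
    rw [eval_mul, eval_natCast]
    ring

end Pool.Agent.Work.MP_7da6af_nt.Rc
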