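import Pool.Agent.Work.MP_7da6af_nt.Rc.Glob

/-! # Cusps -/

set_option autoImplicit false

namespace Pool.Agent.Work.MP_7da6af_nt.Rc

open Filter Topology ComplexConjugate

variable {m : ℕ}

/-- the exponent at a cusp; `none` is the point at infinity -/
def cv (P : Fin m → ℝ) : Option (Fin m) → ℝ
  | none => -∑ i, P i
  | some i => P i

/-- the logarithm of the local coordinate at a cusp -/
noncomputable def loc (a : Fin m → ℂ) : Option (Fin m) → ℂ → ℝ
  | none, y => -Real.log ‖y‖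
  | some i, y => Real.log ‖y - a i‖

/-- the origin of the local coordinate -/
def org (a : Fin m → ℂ) : Option (Fin m) → ℂ
  | none => 0
  | some i => a i

/-- the exponent of the local coordinate -/
def eps : Option (Fin m) → ℝ
  | none => -1
  | some _ => 1

theorem log_org (a : Fin m → ℂ) (o : Option (Fin m)) (y : ℂ) :
    Real.log ‖y - org a o‖ = eps o * loc a o y := by
  cases o with
  | none => simp [org, eps, loc]
  | some i => simp [org, eps, loc]

theorem eps_ne (o : Option (Fin m)) : eps o = 1 ∨ eps o = -1 := by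
  cases o with
  | none => exact Or.inr rfl
  | some i => exact Or.inl rfl

/-- the value near a finite cusp -/
theorem near_cusp {ι : Type} (l : Filter ι) (a : Fin m → ℂ) (ha : Function.Injective a) (i0 : Fin m)
    (y : ι → ℂ) (hy : Tendsto y l (𝓝[≠] (a i0))) :
    Tendsto (fun k => Real.log ‖y k - a i0‖) l atBot ∧ ∀ P : Fin m → ℝ, ∃ c : ℝ,
      Tendsto (fun k => HH a P (y k) - P i0 * Real.log ‖y k - a i0‖) l (𝓝 c) := by
  have hy1 : Tendsto y l (𝓝 (a i0)) := hy.mono_right nhdsWithin_le_nhds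
  constructor
  · have h1 : Tendsto (fun k => ‖y k - a i0‖) l (𝓝[≠] 0) := by
      rw [tendsto_nhdsWithin_iff] at hy ⊢
      constructor
      · have h2 : Tendsto (fun k => y k - a i0) l (𝓝 (a i0 - a i0)) := hy1.sub_const _
        rw [sub_self] at h2
        simpa using h2.norm
      · filter_upwards [hy.2] with k hk
        exact norm_ne_zero_iff.mpr (sub_ne_zero.mpr hk)
    exact Real.tendsto_log_nhdsNE_zero.comp h1
  · intro P
    refine ⟨∑ i ∈ Finset.univ.erase i0, P i * Real.log ‖a i0 - a i‖, ?_⟩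
    have h1 : ∀ k, HH a P (y k) - P i0 * Real.log ‖y k - a i0‖ =
        ∑ i ∈ Finset.univ.erase i0, P i * Real.log ‖y k - a i‖ := by
      intro k
      unfold HH
      rw [← Finset.add_sum_erase Finset.univ _ (Finset.mem_univ i0)]
      ring
    simp only [h1]
    refine tendsto_finsetSum _ fun i hi => ?_
    have hne : a i0 - a i ≠ 0 := by
      rw [sub_ne_zero]
      exact fun h => (Finset.mem_erase.mp hi).1 (ha h).symm
    have h2 : Tendsto (fun k => ‖y k - a i‖) l (𝓝 ‖a i0 - a i‖) := (hy1.sub_const (a i)).norm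
    exact (h2.log (norm_ne_zero_iff.mpr hne)).const_mul _

/-- the value near infinity -/
theorem near_inf {ι : Type} (l : Filter ι) (a : Fin m → ℂ)
    (y : ι → ℂ) (hy : Tendsto (fun k => ‖y k‖) l atTop) :
    Tendsto (fun k => -Real.log ‖y k‖) l atBot ∧ ∀ P : Fin m → ℝ, ∃ c : ℝ,
      Tendsto (fun k => HH a P (y k) - (-∑ i, P i) * (-Real.log ‖y k‖)) l (𝓝 c) := by
  constructor
  · exact tendsto_neg_atTop_atBot.comp (Real.tendsto_log_atTop.comp hy)
  · intro P
    refine ⟨0, ?_⟩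
    have h1 : ∀ k, HH a P (y k) - (-∑ i, P i) * (-Real.log ‖y k‖) =
        ∑ i, P i * (Real.log ‖y k - a i‖ - Real.log ‖y k‖) := by
      intro k
      unfold HH
      rw [neg_mul_neg, Finset.sum_mul, ← Finset.sum_sub_distrib]
      refine Finset.sum_congr rfl fun i _ => ?_
      ring
    simp only [h1]
    have h0 : (0 : ℝ) = ∑ i : Fin m, P i * 0 := by simp
    rw [h0]
    refine tendsto_finsetSum _ fun i _ => ?_
    refine Tendsto.const_mul _ ?_
    have hinv : Tendsto (fun k => (y k)⁻¹) l (𝓝 0) := by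
      rw [tendsto_zero_iff_norm_tendsto_zero]
      simp only [norm_inv]
      exact tendsto_inv_atTop_zero.comp hy
    have h2 : Tendsto (fun k => ‖1 - a i * (y k)⁻¹‖) l (𝓝 1) := by
      have h3 : Tendsto (fun k => 1 - a i * (y k)⁻¹) l (𝓝 (1 - a i * 0)) :=
        (hinv.const_mul (a i)).const_sub 1
      rw [mul_zero, sub_zero] at h3
      simpa using h3.norm
    have h3 : Tendsto (fun k => Real.log ‖1 - a i * (y k)⁻¹‖) l (𝓝 0) := by
      have := h2.log one_ne_zero
      rwa [Real.log_one] at this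
    refine h3.congr' ?_
    have h4 : ∀ᶠ k in l, ‖a i‖ + 1 ≤ ‖y k‖ := hy.eventually_ge_atTop _
    filter_upwards [h4] with k hk
    have hyk : y k ≠ 0 := by
      intro h0
      rw [h0, norm_zero] at hk
      linarith [norm_nonneg (a i)]
    have hyk' : y k - a i ≠ 0 := by
      intro h0
      rw [sub_eq_zero] at h0
      rw [h0] at hk
      linarith
    have h5 : 1 - a i * (y k)⁻¹ = (y k - a i) / y k := by
      field_simp
    rw [h5, norm_div, Real.log_div (norm_ne_zero_iff.mpr hyk') (norm_ne_zero_iff.mpr hyk)]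

/-- a sequence has one of three behaviours along an ultrafilter -/
theorem trichotomy0 (a : Fin m → ℂ) (ha : Function.Injective a) (l : Ultrafilter ℕ)
    (y : ℕ → ℂ) (hy : ∀ k i, y k ≠ a i) :
    (∃ o : Option (Fin m), Tendsto (fun k => loc a o (y k)) l atBot ∧
      (∀ᶠ k in (l : Filter ℕ), y k ≠ org a o) ∧ ∀ P : Fin m → ℝ, ∃ c : ℝ,
      Tendsto (fun k => HH a P (y k) - cv P o * loc a o (y k)) l (𝓝 c)) ∨
    ∃ x : ℂ, (∀ i, x ≠ a i) ∧ Tendsto y l (𝓝 x) := by
  by_cases hb : ∃ r : ℝ, ∀ᶠ k in (l : Filter ℕ), ‖y k‖ ≤ r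
  · obtain ⟨r, hr⟩ := hb
    have h1 : ((l.map y : Ultrafilter ℂ) : Filter ℂ) ≤ 𝓟 (Metric.closedBall 0 r) := by
      rw [le_principal_iff]
      show y ⁻¹' (Metric.closedBall 0 r) ∈ (l : Filter ℕ)
      filter_upwards [hr] with k hk
      simpa using hk
    obtain ⟨x, -, hx⟩ := (isCompact_closedBall (0 : ℂ) r).ultrafilter_le_nhds _ h1
    have hx' : Tendsto y l (𝓝 x) := hx
    by_cases hcusp : ∃ i, x = a i
    · obtain ⟨i, rfl⟩ := hcusp
      left
      have h2 : Tendsto y l (𝓝[≠] (a i)) := by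
        rw [tendsto_nhdsWithin_iff]
        exact ⟨hx', Eventually.of_forall fun k => hy k i⟩
      obtain ⟨h3, h4⟩ := near_cusp (l : Filter ℕ) a ha i y h2
      exact ⟨some i, h3, Eventually.of_forall fun k => hy k i, h4⟩
    · push Not at hcusp
      exact Or.inr ⟨x, hcusp, hx'⟩
  · left
    have h1 : Tendsto (fun k => ‖y k‖) l atTop := by
      rw [tendsto_atTop]
      intro r
      push Not at hb
      have h2 := hb r
      filter_upwards [h2] with k hk
      exact hk.le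
    obtain ⟨h3, h4⟩ := near_inf (l : Filter ℕ) a y h1
    refine ⟨none, h3, ?_, h4⟩
    filter_upwards [h1.eventually_ge_atTop 1] with k hk
    show y k ≠ 0
    intro h0
    rw [h0, norm_zero] at hk
    linarith

theorem trichotomy (a : Fin m → ℂ) (ha : Function.Injective a) (l : Ultrafilter ℕ)
    (y : ℕ → ℂ) (hy : ∀ k i, y k ≠ a i) :
    (∃ o : Option (Fin m), Tendsto (fun k => loc a o (y k)) l atBot ∧
      (∀ᶠ k in (l : Filter ℕ), y k ≠ org a o) ∧ ∀ P : Fin m → ℝ, ∃ c : ℝ,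
      Tendsto (fun k => HH a P (y k) - cv P o * loc a o (y k)) l (𝓝 c)) ∨
    ∀ P : Fin m → ℝ, ∃ c : ℝ, Tendsto (fun k => HH a P (y k)) l (𝓝 c) := by
  rcases trichotomy0 a ha l y hy with h | ⟨x, hx, hx'⟩
  · exact Or.inl h
  · right
    intro P
    exact ⟨HH a P x, (continuousAt_HH a P x hx).tendsto.comp hx'⟩

/-- approach to a cusp -/
theorem exists_approach (a : Fin m → ℂ) (ha : Function.Injective a) (o : Option (Fin m))
    (Θ : Polynomial ℂ) (hΘ : Θ ≠ 0) :
    ∃ y : ℕ → ℂ, (∀ k, Θ.eval (y k) ≠ 0) ∧ Tendsto (fun k => loc a o (y k)) atTop atBot ∧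
      (∀ᶠ k in atTop, y k ≠ org a o) ∧ ∀ P : Fin m → ℝ, ∃ c : ℝ,
        Tendsto (fun k => HH a P (y k) - cv P o * loc a o (y k)) atTop (𝓝 c) := by
  have hfin : {y : ℂ | Θ.eval y = 0}.Finite := by
    refine (Θ.roots.toFinset).finite_toSet.subset ?_
    intro y hy
    simp only [Finset.mem_coe, Multiset.mem_toFinset]
    rw [Polynomial.mem_roots hΘ]
    exact hy
  rcases o with _ | i
  · have h1 : ∃ K : ℕ, ∀ k, K ≤ k → Θ.eval ((k : ℕ) : ℂ) ≠ 0 := by
      have h2 : {k : ℕ | Θ.eval ((k : ℕ) : ℂ) = 0}.Finite :=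
        hfin.preimage (f := fun k : ℕ => (k : ℂ)) (fun x _ y _ h => Nat.cast_injective (R := ℂ) h)
      obtain ⟨K, hK⟩ := h2.bddAbove
      refine ⟨K + 1, fun k hk h0 => ?_⟩
      have := hK h0
      omega
    obtain ⟨K, hK⟩ := h1
    have h2 : Tendsto (fun k : ℕ => ‖((k + K : ℕ) : ℂ)‖) atTop atTop := by
      have h3 : Tendsto (fun k : ℕ => ((k + K : ℕ) : ℝ)) atTop atTop :=
        tendsto_natCast_atTop_atTop.comp (tendsto_add_atTop_nat K)
      refine h3.congr fun k => ?_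
      rw [Complex.norm_natCast]
    obtain ⟨h3, h4⟩ := near_inf atTop a (fun k : ℕ => ((k + K : ℕ) : ℂ)) h2
    refine ⟨fun k : ℕ => ((k + K : ℕ) : ℂ), fun k => hK _ (by omega), h3, ?_, h4⟩
    filter_upwards [h2.eventually_ge_atTop 1] with k hk
    show ((k + K : ℕ) : ℂ) ≠ 0
    intro h0
    rw [h0, norm_zero] at hk
    linarith
  · have h1 : ∀ᶠ y in 𝓝[≠] (a i), Θ.eval y ≠ 0 := by
      have h5 := (hfin.subset (Set.sdiff_subset (t := {a i}))).isClosed.isOpen_compl
      have h6 : a i ∈ ({y : ℂ | Θ.eval y = 0} \ {a i})ᶜ := by simp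
      have h7 := h5.mem_nhds h6
      have h8 : {y : ℂ | Θ.eval y ≠ 0} ∈ 𝓝[≠] (a i) := by
        rw [mem_nhdsWithin_iff_exists_mem_nhds_inter]
        refine ⟨_, h7, ?_⟩
        rintro y ⟨hy1, hy2⟩ hy3
        exact hy1 ⟨hy3, hy2⟩
      exact h8
    obtain ⟨y, hy1, hy2⟩ := exists_seq_forall_of_frequently h1.frequently
    obtain ⟨h3, h4⟩ := near_cusp atTop a ha i y hy1
    refine ⟨y, hy2, h3, ?_, h4⟩
    rw [tendsto_nhdsWithin_iff] at hy1
    exact hy1.2

/-- comparison of two cusps -/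
theorem compare (l : Ultrafilter ℕ) (σ τ : ℕ → ℝ) (hσ : Tendsto σ l atBot)
    (hτ : Tendsto τ l atBot) (x1 x2 w1 w2 K : ℝ) (hx : ¬ (x1 = 0 ∧ x2 = 0))
    (h1 : ∀ᶠ k in (l : Filter ℕ), |x1 * σ k + w1 * τ k| ≤ K)
    (h2 : ∀ᶠ k in (l : Filter ℕ), |x2 * σ k + w2 * τ k| ≤ K) :
    ∃ lam : ℝ, 0 < lam ∧ w1 = -lam * x1 ∧ w2 = -lam * x2 ∧
      Tendsto (fun k => τ k / σ k) l (𝓝 lam⁻¹) := by
  -- a multiple of a sequence tending to infinity is bounded only if the factor is zero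
  have key : ∀ (D K' : ℝ), (∀ᶠ k in (l : Filter ℕ), |D * τ k| ≤ K') → D = 0 := by
    intro D K' hD
    by_contra hD0
    have h3 : ∀ᶠ k in (l : Filter ℕ), τ k ≤ -(|K'| + 1) / |D| := hτ.eventually_le_atBot _
    obtain ⟨k, h4, h5⟩ := (hD.and h3).exists
    have hDp : 0 < |D| := abs_pos.mpr hD0
    rw [abs_mul] at h4
    have h6 : (|K'| + 1) / |D| ≤ |τ k| := by
      have h7 := neg_le_abs (τ k)
      rw [neg_div] at h5
      linarith
    rw [div_le_iff₀ hDp] at h6
    linarith [le_abs_self K']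
  have hD : x1 * w2 - x2 * w1 = 0 := by
    refine key _ (|x1| * K + |x2| * K) ?_
    filter_upwards [h1, h2] with k k1 k2
    have h3 : (x1 * w2 - x2 * w1) * τ k =
        x1 * (x2 * σ k + w2 * τ k) - x2 * (x1 * σ k + w1 * τ k) := by ring
    rw [h3]
    refine (abs_sub _ _).trans ?_
    rw [abs_mul, abs_mul]
    exact add_le_add (mul_le_mul_of_nonneg_left k2 (abs_nonneg _))
      (mul_le_mul_of_nonneg_left k1 (abs_nonneg _))
  obtain ⟨μ, hμ1, hμ2⟩ : ∃ μ : ℝ, w1 = μ * x1 ∧ w2 = μ * x2 := by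
    by_cases hx1 : x1 = 0
    · have hx2 : x2 ≠ 0 := fun h => hx ⟨hx1, h⟩
      refine ⟨w2 / x2, ?_, by field_simp⟩
      rw [hx1, zero_mul, zero_sub, neg_eq_zero] at hD
      rw [hx1, mul_zero]
      exact (mul_eq_zero.mp hD).resolve_left hx2
    · refine ⟨w1 / x1, by field_simp, ?_⟩
      rw [div_mul_eq_mul_div, eq_div_iff hx1]
      linarith
  -- one of the two coordinates is nonzero
  obtain ⟨x, hx0, hxK⟩ : ∃ x : ℝ, x ≠ 0 ∧ ∀ᶠ k in (l : Filter ℕ), |x * (σ k + μ * τ k)| ≤ K := by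
    by_cases hx1 : x1 = 0
    · have hx2 : x2 ≠ 0 := fun h => hx ⟨hx1, h⟩
      refine ⟨x2, hx2, h2.mono fun k hk => ?_⟩
      rw [hμ2] at hk
      have : x2 * (σ k + μ * τ k) = x2 * σ k + μ * x2 * τ k := by ring
      rw [this]
      exact hk
    · refine ⟨x1, hx1, h1.mono fun k hk => ?_⟩
      rw [hμ1] at hk
      have : x1 * (σ k + μ * τ k) = x1 * σ k + μ * x1 * τ k := by ring
      rw [this]
      exact hk
  have hxp : 0 < |x| := abs_pos.mpr hx0
  have hbd : ∀ᶠ k in (l : Filter ℕ), |σ k + μ * τ k| ≤ K / |x| := by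
    filter_upwards [hxK] with k hk
    rw [abs_mul] at hk
    rw [le_div_iff₀ hxp]
    linarith
  have hμneg : μ < 0 := by
    by_contra hμ
    push Not at hμ
    have h3 : ∀ᶠ k in (l : Filter ℕ), σ k ≤ -(|(K / |x|)| + 1) := hσ.eventually_le_atBot _
    have h4 : ∀ᶠ k in (l : Filter ℕ), τ k ≤ 0 := hτ.eventually_le_atBot _
    obtain ⟨k, ⟨h5, h6⟩, h7⟩ := ((hbd.and h3).and h4).exists
    have h8 : μ * τ k ≤ 0 := mul_nonpos_of_nonneg_of_nonpos hμ h7
    have h10 := neg_le_abs (σ k + μ * τ k)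
    linarith [le_abs_self (K / |x|)]
  refine ⟨-μ, by linarith, by rw [neg_neg]; exact hμ1, by rw [neg_neg]; exact hμ2, ?_⟩
  -- the quotient
  have hσne : ∀ᶠ k in (l : Filter ℕ), σ k < 0 := hσ.eventually_lt_atBot 0
  have hz : Tendsto (fun k => (σ k + μ * τ k) / σ k) l (𝓝 0) := by
    have h3 : Tendsto (fun k => K / |x| * |(σ k)⁻¹|) l (𝓝 0) := by
      have h4 : Tendsto (fun k => |(σ k)⁻¹|) l (𝓝 0) := by
        have h5 : Tendsto (fun k => (σ k)⁻¹) l (𝓝 0) := tendsto_inv_atBot_zero.comp hσ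
        simpa using h5.abs
      simpa using h4.const_mul (K / |x|)
    refine squeeze_zero_norm' ?_ h3
    filter_upwards [hbd] with k hk
    rw [Real.norm_eq_abs, div_eq_mul_inv, abs_mul]
    exact mul_le_mul_of_nonneg_right hk (abs_nonneg _)
  have h4 : Tendsto (fun k => ((σ k + μ * τ k) / σ k - 1) / μ) l (𝓝 ((0 - 1) / μ)) :=
    (hz.sub_const 1).div_const μ
  have h5 : (0 - 1) / μ = (-μ)⁻¹ := by
    rw [zero_sub, neg_div, one_div, inv_neg]
  rw [h5] at h4
  refine h4.congr' ?_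
  filter_upwards [hσne] with k hk
  have hk' : σ k ≠ 0 := hk.ne
  have hμ' : μ ≠ 0 := hμneg.ne
  field_simp
  ring

theorem HH_conj_seq (a : Fin m → ℂ) (P : Fin m → ℝ) (η : ℂ) :
    HH (fun i => conj (a i)) P η = HH a P (conj η) := by
  unfold HH
  refine Finset.sum_congr rfl fun i _ => ?_
  congr 2
  rw [← Complex.norm_conj, map_sub, Complex.conj_conj]

end Pool.Agent.Work.MP_7da6af_nt.Rc
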