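import Pool.Agent.Work.MP_7da6af_nt.Rc.Germ
import Pool.Agent.Work.MP_7da6af_nt.Rc.Alg

/-! # The values over a point are constant -/

set_option autoImplicit false

namespace Pool.Agent.Work.MP_7da6af_nt.Rc

open Filter Topology ComplexConjugate
open Polynomial (C X derivative evalEval)
open scoped ContDiff

theorem analyticAt_pair (P : Polynomial (Polynomial ℂ)) (u : ℂ × ℂ) :
    AnalyticAt ℂ (fun u : ℂ × ℂ => P.evalEval u.1 u.2) u := by
  induction P using Polynomial.induction_on' with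
  | add p q hp hq =>
    simp only [Polynomial.evalEval_add]
    exact hp.add hq
  | monomial n c =>
    simp only [evalEval_monomial]
    refine AnalyticAt.mul ?_ (analyticAt_snd.pow n)
    have := (analyticAt_fst (𝕜 := ℂ) (p := u)).aeval_polynomial c
    simpa [Polynomial.coe_aeval_eq_eval] using this

/-- local branches -/
theorem exists_branch (P : Polynomial (Polynomial ℂ)) (y0 η0 : ℂ) (h : P.evalEval y0 η0 = 0)
    (h' : (derivative P).evalEval y0 η0 ≠ 0) :
    ∃ e : ℂ → ℂ, e y0 = η0 ∧ AnalyticAt ℂ e y0 ∧ ∀ᶠ y in 𝓝 y0, P.evalEval y (e y) = 0 := by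
  set F : ℂ × ℂ → ℂ := fun u => P.evalEval u.1 u.2 with hF
  have hcd : ContDiffAt ℂ ω F (y0, η0) := (analyticAt_pair P (y0, η0)).contDiffAt
  have hfd : HasFDerivAt F (fderiv ℂ F (y0, η0)) (y0, η0) :=
    (analyticAt_pair P (y0, η0)).differentiableAt.hasFDerivAt
  have hd1 : HasDerivAt (fun η => F (y0, η)) ((derivative P).evalEval y0 η0) η0 := by
    have h1 := hasDerivAt_evalEval (hasDerivAt_const η0 y0) (hasDerivAt_id η0) P
    refine h1.congr_deriv ?_
    simp
  have hd2 : HasDerivAt (fun η => F (y0, η)) (fderiv ℂ F (y0, η0) (0, 1)) η0 := by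
    have h1 : HasDerivAt (fun η : ℂ => (y0, η)) ((0 : ℂ), (1 : ℂ)) η0 :=
      (hasDerivAt_const η0 y0).prodMk (hasDerivAt_id η0)
    exact hfd.comp_hasDerivAt η0 h1
  have heq : fderiv ℂ F (y0, η0) (0, 1) = (derivative P).evalEval y0 η0 := hd2.unique hd1
  have hinv : (fderiv ℂ F (y0, η0) ∘L .inr ℂ ℂ ℂ).IsInvertible := by
    refine ⟨ContinuousLinearEquiv.unitsEquivAut ℂ (Units.mk0 _ h'), ?_⟩
    ext
    simp [heq]
  have hω : (ω : ℕ∞ω) ≠ 0 := by simp
  refine ⟨hcd.implicitFunction hω hinv, ?_, ?_, ?_⟩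
  · exact hcd.implicitFunction_apply_self hω hinv
  · exact (hcd.contDiffAt_implicitFunction hω hinv).analyticAt
  · have h1 := hcd.eventually_apply_implicitFunction hω hinv
    have h2 : F (y0, η0) = 0 := h
    rw [h2] at h1
    exact h1

variable {m : ℕ}

/-- the value is constant along a branch -/
theorem value_const (a b : Fin m → ℂ) (R : Fin m → ℝ) (y0 : ℂ) (e : ℂ → ℂ)
    (he : AnalyticAt ℂ e y0) (hy0 : ∀ i, y0 ≠ a i) (he0 : ∀ i, e y0 ≠ b i)
    (h : ∀ᶠ y in 𝓝 y0, AA a R y + AA b R (e y) * deriv e y = 0) :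
    ∀ᶠ y in 𝓝 y0, HH a R y + HH b R (e y) = HH a R y0 + HH b R (e y0) := by
  obtain ⟨F1, hF10, hF1⟩ := exists_log a R y0 hy0
  obtain ⟨F2, hF20, hF2⟩ := exists_log b R (e y0) he0
  have hed : ∀ᶠ y in 𝓝 y0, DifferentiableAt ℂ e y :=
    Complex.analyticAt_iff_eventually_differentiableAt.mp he
  have hF2' := he.continuousAt.eventually hF2
  set G : ℂ → ℂ := fun y => F1 y + F2 (e y) with hG
  have hGd : ∀ᶠ y in 𝓝 y0, HasDerivAt G 0 y := by
    filter_upwards [hF1, hF2', hed, h] with y h1 h2 h3 h4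
    have h5 := h1.1.fun_add (h2.1.comp y h3.hasDerivAt)
    rw [h4] at h5
    exact h5
  obtain ⟨r, hr, hball⟩ := Metric.eventually_nhds_iff_ball.mp hGd
  have hconst : ∀ y ∈ Metric.ball y0 r, G y = G y0 := by
    intro y hy
    exact Metric.isOpen_ball.is_const_of_deriv_eq_zero (convex_ball y0 r).isPreconnected
      (fun x hx => (hball x hx).differentiableAt.differentiableWithinAt)
      (fun x hx => (hball x hx).deriv) hy (Metric.mem_ball_self hr)
  filter_upwards [hF1, hF2', Metric.ball_mem_nhds y0 hr] with y h1 h2 h3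
  have h4 : G y0 = 0 := by
    rw [hG]
    simp only
    rw [hF10, hF20, add_zero]
  have h5 : (G y).re = 0 := by rw [hconst y h3, h4, Complex.zero_re]
  have h6 : (G y).re = (F1 y).re + (F2 (e y)).re := by rw [hG]; simp
  rw [h6, h1.2, h2.2] at h5
  linarith

/-- the polynomial which expresses the relation between the differentials -/
noncomputable def GR (a b : Fin m → ℂ) (R : Fin m → ℝ) (P : Polynomial (Polynomial ℂ)) :
    Polynomial (Polynomial ℂ) :=
  C (NA a R) * (MM b).map C * derivative P - C (MM a) * (NA b R).map C * dX P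

theorem evalEval_GR (a b : Fin m → ℂ) (R : Fin m → ℝ) (P : Polynomial (Polynomial ℂ)) (y η : ℂ)
    (hy : ∀ i, y ≠ a i) (hη : ∀ i, η ≠ b i) : (GR a b R P).evalEval y η =
      (MM a).eval y * (MM b).eval η * (AA a R y * (derivative P).evalEval y η -
        AA b R η * (dX P).evalEval y η) := by
  unfold GR
  simp only [Polynomial.evalEval_sub, Polynomial.evalEval_mul, Polynomial.evalEval_C,
    Polynomial.evalEval_map_C]
  rw [eval_NA a R y hy, eval_NA b R η hη]
  ring

theorem MM_ne (a : Fin m → ℂ) (y : ℂ) (hy : ∀ i, y ≠ a i) : (MM a).eval y ≠ 0 := by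
  rw [eval_MM]
  exact Finset.prod_ne_zero_iff.mpr fun i _ => sub_ne_zero.mpr (hy i)

/-- the data of a germ -/
structure Grm (a b : Fin m → ℂ) (P Q : Fin m → ℝ) (Z W : ℂ → ℂ) : Prop where
  hZ : AnalyticAt ℂ Z 0
  hW : AnalyticAt ℂ W 0
  hZd : deriv Z 0 ≠ 0
  hWd : deriv W 0 ≠ 0
  hZ0 : ∀ i, Z 0 ≠ a i
  hW0 : ∀ i, W 0 ≠ b i
  hP : ∀ᶠ s in 𝓝 (0 : ℂ), AA a P (Z s) * deriv Z s + AA b P (W s) * deriv W s = 0
  hQ : ∀ᶠ s in 𝓝 (0 : ℂ), AA a Q (Z s) * deriv Z s + AA b Q (W s) * deriv W s = 0

section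

variable {a b : Fin m → ℂ} {P Q : Fin m → ℝ} {Z W : ℂ → ℂ}

theorem Grm.symm (h : Grm a b P Q Z W) : Grm a b Q P Z W :=
  ⟨h.hZ, h.hW, h.hZd, h.hWd, h.hZ0, h.hW0, h.hQ, h.hP⟩

theorem Grm.ne (h : Grm a b P Q Z W) :
    ∀ᶠ s in 𝓝 (0 : ℂ), (∀ i, Z s ≠ a i) ∧ (∀ i, W s ≠ b i) ∧ deriv Z s ≠ 0 := by
  have h1 := eventually_all.mpr fun i => h.hZ.continuousAt.eventually_ne (h.hZ0 i)
  have h2 := eventually_all.mpr fun i => h.hW.continuousAt.eventually_ne (h.hW0 i)
  have h3 := h.hZ.deriv.continuousAt.eventually_ne h.hZd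
  filter_upwards [h1, h2, h3] with s a1 a2 a3
  exact ⟨a1, a2, a3⟩

/-- the relation between the differentials vanishes on the germ -/
theorem Grm.van_GR (h : Grm a b P Q Z W) {T : Polynomial (Polynomial ℂ)} (hT : Van Z W T) :
    Van Z W (GR a b P T) := by
  have hZd := Complex.analyticAt_iff_eventually_differentiableAt.mp h.hZ
  have hWd := Complex.analyticAt_iff_eventually_differentiableAt.mp h.hW
  filter_upwards [h.ne, h.hP, hZd, hWd, eventually_eventually_nhds.mpr hT] with s h1 h2 h3 h4 h5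
  have h6 : HasDerivAt (fun s => T.evalEval (Z s) (W s)) 0 s :=
    (hasDerivAt_const s (0 : ℂ)).congr_of_eventuallyEq h5
  have h7 := h6.unique (hasDerivAt_evalEval h3.hasDerivAt h4.hasDerivAt T)
  rw [evalEval_GR a b P T _ _ h1.1 h1.2.1]
  have h8 : AA a P (Z s) * (derivative T).evalEval (Z s) (W s) -
      AA b P (W s) * (dX T).evalEval (Z s) (W s) = 0 := by
    apply mul_left_cancel₀ h1.2.2
    linear_combination (derivative T).evalEval (Z s) (W s) * h2 + AA b P (W s) * h7
  rw [h8, mul_zero]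

/-- the algebraic relation between the coordinates of the germ -/
noncomputable def RR (a b : Fin m → ℂ) (P Q : Fin m → ℝ) : Polynomial (Polynomial ℂ) :=
  C (NA a P) * (NA b Q).map C - C (NA a Q) * (NA b P).map C

theorem Grm.van_RR (h : Grm a b P Q Z W) : Van Z W (RR a b P Q) := by
  filter_upwards [h.ne, h.hP, h.hQ] with s h1 h2 h3
  unfold RR
  simp only [Polynomial.evalEval_sub, Polynomial.evalEval_mul, Polynomial.evalEval_C,
    Polynomial.evalEval_map_C]
  rw [eval_NA a P _ h1.1, eval_NA a Q _ h1.1, eval_NA b P _ h1.2.1, eval_NA b Q _ h1.2.1]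
  have h4 : AA a P (Z s) * AA b Q (W s) - AA a Q (Z s) * AA b P (W s) = 0 := by
    apply mul_left_cancel₀ h1.2.2
    linear_combination AA b Q (W s) * h2 - AA b P (W s) * h3
  linear_combination (MM a).eval (Z s) * (MM b).eval (W s) * h4

theorem RR_ne (ha : Function.Injective a) (hb : Function.Injective b)
    (hPQ : ∃ i j, P i * Q j - Q i * P j ≠ 0) : RR a b P Q ≠ 0 := by
  obtain ⟨i, j, hij⟩ := hPQ
  intro h0
  have h1 := congrArg (fun R => evalEval (a i) (b j) R) h0
  simp only [RR, Polynomial.evalEval_sub, Polynomial.evalEval_mul, Polynomial.evalEval_C,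
    Polynomial.evalEval_map_C, Polynomial.evalEval_zero] at h1
  rw [eval_NA_cusp, eval_NA_cusp, eval_NA_cusp, eval_NA_cusp] at h1
  have h2 : ∏ l ∈ Finset.univ.erase i, (a i - a l) ≠ 0 := by
    refine Finset.prod_ne_zero_iff.mpr fun l hl => ?_
    rw [sub_ne_zero]
    exact fun hil => (Finset.mem_erase.mp hl).1 (ha hil).symm
  have h3 : ∏ l ∈ Finset.univ.erase j, (b j - b l) ≠ 0 := by
    refine Finset.prod_ne_zero_iff.mpr fun l hl => ?_
    rw [sub_ne_zero]
    exact fun hil => (Finset.mem_erase.mp hl).1 (hb hil).symm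
  have h4 : ((P i * Q j - Q i * P j : ℝ) : ℂ) = 0 := by
    have h5 := mul_ne_zero h2 h3
    apply mul_right_cancel₀ h5
    push_cast
    linear_combination h1
  exact hij (by exact_mod_cast h4)

end

/-- the set of the values over a point -/
def VS (a b : Fin m → ℂ) (R : Fin m → ℝ) (T : Polynomial (Polynomial ℂ)) (y : ℂ) : Set ℝ :=
  {x | ∃ η, T.evalEval y η = 0 ∧ x = HH a R y + HH b R η}

theorem eval_sp (T : Polynomial (Polynomial ℂ)) (y η : ℂ) :
    (T.map (Polynomial.evalRingHom y)).eval η = T.evalEval y η := by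
  rw [Polynomial.map_evalRingHom_eval]

/-- the values over a point are locally constant -/
theorem VS_locally (a b : Fin m → ℂ) (R : Fin m → ℝ) (T α β : Polynomial (Polynomial ℂ))
    (r c : Polynomial ℂ) (hsep : α * T + β * derivative T = C r)
    (hdvd : T ∣ C c * GR a b R T) (y0 : ℂ) (hy0 : ∀ i, y0 ≠ a i)
    (hlc : T.leadingCoeff.eval y0 ≠ 0) (hr : r.eval y0 ≠ 0) (hc : c.eval y0 ≠ 0)
    (hb : ∀ i, T.evalEval y0 (b i) ≠ 0) :
    ∀ᶠ y in 𝓝 y0, VS a b R T y = VS a b R T y0 := by
  classical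
  -- the specialization
  set p : ℂ → Polynomial ℂ := fun y => T.map (Polynomial.evalRingHom y) with hp
  have hpe : ∀ y η, (p y).eval η = T.evalEval y η := eval_sp T
  have hpd : ∀ y, (derivative (p y)).eval = fun η => (derivative T).evalEval y η := by
    intro y
    funext η
    rw [hp]
    simp only
    rw [Polynomial.derivative_map, eval_sp]
  have hdeg : (p y0).natDegree = T.natDegree :=
    Polynomial.natDegree_map_of_leadingCoeff_ne_zero _ hlc
  have hdegle : ∀ y, (p y).natDegree ≤ T.natDegree := fun y => Polynomial.natDegree_map_le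
  have hp0 : p y0 ≠ 0 := by
    intro h0
    have h1 := congrArg (fun q => Polynomial.coeff q T.natDegree) h0
    simp only [hp, Polynomial.coeff_map, Polynomial.coeff_zero, Polynomial.coe_evalRingHom] at h1
    exact hlc h1
  have hsepy : (p y0).Separable := by
    have h1 := congrArg (Polynomial.map (Polynomial.evalRingHom y0)) hsep
    rw [Polynomial.map_add, Polynomial.map_mul, Polynomial.map_mul, Polynomial.map_C,
      ← Polynomial.derivative_map, Polynomial.coe_evalRingHom] at h1
    refine ⟨C (r.eval y0)⁻¹ * α.map (Polynomial.evalRingHom y0),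
      C (r.eval y0)⁻¹ * β.map (Polynomial.evalRingHom y0), ?_⟩
    have h2 : C (r.eval y0)⁻¹ * C (r.eval y0) = (1 : Polynomial ℂ) := by
      rw [← Polynomial.C_mul, inv_mul_cancel₀ hr, Polynomial.C_1]
    linear_combination C (r.eval y0)⁻¹ * h1 + h2
  set S0 := (p y0).roots.toFinset with hS0
  have hS0card : S0.card = T.natDegree := by
    rw [hS0, Multiset.toFinset_card_of_nodup (Polynomial.nodup_roots hsepy),
      IsAlgClosed.card_roots_eq_natDegree, hdeg]
  have hS0mem : ∀ η, η ∈ S0 ↔ T.evalEval y0 η = 0 := by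
    intro η
    rw [hS0, Multiset.mem_toFinset, Polynomial.mem_roots hp0, Polynomial.IsRoot.def, hpe]
  have hder : ∀ η ∈ S0, (derivative T).evalEval y0 η ≠ 0 := by
    intro η hη h0
    have h1 := congrArg (fun q => evalEval y0 η q) hsep
    simp only [Polynomial.evalEval_add, Polynomial.evalEval_mul, Polynomial.evalEval_C] at h1
    rw [(hS0mem η).mp hη, h0, mul_zero, mul_zero, add_zero] at h1
    exact hr h1.symm
  -- the branches
  have hbr : ∀ η : ℂ, ∃ e : ℂ → ℂ, η ∈ S0 → (e y0 = η ∧ AnalyticAt ℂ e y0 ∧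
      (∀ᶠ y in 𝓝 y0, T.evalEval y (e y) = 0) ∧
      ∀ᶠ y in 𝓝 y0, HH a R y + HH b R (e y) = HH a R y0 + HH b R η) := by
    intro η
    by_cases hη : η ∈ S0
    swap
    · exact ⟨fun _ => 0, fun h => absurd h hη⟩
    obtain ⟨e, he0, hea, he⟩ := exists_branch T y0 η ((hS0mem η).mp hη) (hder η hη)
    refine ⟨e, fun _ => ⟨he0, hea, he, ?_⟩⟩
    have heb : ∀ i, e y0 ≠ b i := by
      intro i h0
      apply hb i
      rw [← h0, he0]
      exact (hS0mem η).mp hη
    have hval := value_const a b R y0 e hea hy0 heb ?_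
    · rw [he0] at hval
      exact hval
    have hed := Complex.analyticAt_iff_eventually_differentiableAt.mp hea
    have hPη : ∀ᶠ y in 𝓝 y0, (derivative T).evalEval y (e y) ≠ 0 := by
      have h1 : ContinuousAt (fun y => (derivative T).evalEval y (e y)) y0 :=
        (analyticAt_evalEval analyticAt_id hea (derivative T)).continuousAt
      refine h1.eventually_ne ?_
      rw [he0]
      exact hder η hη
    have hyne := eventually_all.mpr fun i => (isOpen_ne.mem_nhds (hy0 i) : ∀ᶠ y in 𝓝 y0, y ≠ a i)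
    have hene := eventually_all.mpr fun i => hea.continuousAt.eventually_ne (heb i)
    have hcne : ∀ᶠ y in 𝓝 y0, c.eval y ≠ 0 := c.continuous.continuousAt.eventually_ne hc
    filter_upwards [hed, hPη, hyne, hene, hcne, he, eventually_eventually_nhds.mpr he]
      with y k1 k2 k3 k4 k5 k6 k7
    have h6 : HasDerivAt (fun s => T.evalEval s (e s)) 0 y :=
      (hasDerivAt_const y (0 : ℂ)).congr_of_eventuallyEq k7
    have h7 := h6.unique (hasDerivAt_evalEval (hasDerivAt_id y) k1.hasDerivAt T)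
    obtain ⟨q, hq⟩ := hdvd
    have h8 := congrArg (fun q => evalEval y (e y) q) hq
    simp only [Polynomial.evalEval_mul, Polynomial.evalEval_C] at h8
    rw [k6, zero_mul, evalEval_GR a b R T _ _ k3 k4] at h8
    have h9 := (mul_eq_zero.mp h8).resolve_left k5
    have h10 := (mul_eq_zero.mp h9).resolve_left
      (mul_ne_zero (MM_ne a y k3) (MM_ne b (e y) k4))
    apply mul_left_cancel₀ k2
    simp only [id] at h7
    linear_combination h10 - AA b R (e y) * h7
  choose e he using hbr
  have hev1 : ∀ᶠ y in 𝓝 y0, ∀ η ∈ S0, T.evalEval y (e η y) = 0 ∧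
      HH a R y + HH b R (e η y) = HH a R y0 + HH b R η := by
    rw [eventually_all_finset]
    intro η hη
    exact (he η hη).2.2.1.and (he η hη).2.2.2
  have hev2 : ∀ᶠ y in 𝓝 y0, ∀ η ∈ S0, ∀ η' ∈ S0, η ≠ η' → e η y ≠ e η' y := by
    rw [eventually_all_finset]
    intro η hη
    rw [eventually_all_finset]
    intro η' hη'
    by_cases hne : η = η'
    · exact Eventually.of_forall fun y h => absurd hne h
    · have h1 : ContinuousAt (fun y => e η y - e η' y) y0 :=
        (he η hη).2.1.continuousAt.sub (he η' hη').2.1.continuousAt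
      have h2 : e η y0 - e η' y0 ≠ 0 := by
        rw [(he η hη).1, (he η' hη').1]
        exact sub_ne_zero.mpr hne
      exact (h1.eventually_ne h2).mono fun y hy _ => sub_ne_zero.mp hy
  have hev3 : ∀ᶠ y in 𝓝 y0, T.leadingCoeff.eval y ≠ 0 :=
    T.leadingCoeff.continuous.continuousAt.eventually_ne hlc
  filter_upwards [hev1, hev2, hev3] with y h1 h2 h3
  have hpy0 : p y ≠ 0 := by
    intro h0
    have h4 := congrArg (fun q => Polynomial.coeff q T.natDegree) h0
    simp only [hp, Polynomial.coeff_map, Polynomial.coeff_zero, Polynomial.coe_evalRingHom] at h4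
    exact h3 h4
  have hsub : S0.image (fun η => e η y) ⊆ (p y).roots.toFinset := by
    intro x hx
    obtain ⟨η, hη, rfl⟩ := Finset.mem_image.mp hx
    rw [Multiset.mem_toFinset, Polynomial.mem_roots hpy0, Polynomial.IsRoot.def, hpe]
    exact (h1 η hη).1
  have hcard : (S0.image (fun η => e η y)).card = T.natDegree := by
    rw [Finset.card_image_of_injOn, hS0card]
    intro η hη η' hη' heq
    by_contra hne
    exact h2 η hη η' hη' hne heq
  have heq : S0.image (fun η => e η y) = (p y).roots.toFinset := by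
    refine Finset.eq_of_subset_of_card_le hsub ?_
    rw [hcard]
    exact (Multiset.toFinset_card_le _).trans ((Polynomial.card_roots' _).trans (hdegle y))
  ext x
  constructor
  · rintro ⟨η, hη, rfl⟩
    have h4 : η ∈ (p y).roots.toFinset := by
      rw [Multiset.mem_toFinset, Polynomial.mem_roots hpy0, Polynomial.IsRoot.def, hpe]
      exact hη
    rw [← heq] at h4
    obtain ⟨η', hη', rfl⟩ := Finset.mem_image.mp h4
    exact ⟨η', (hS0mem η').mp hη', (h1 η' hη').2⟩
  · rintro ⟨η, hη, rfl⟩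
    have h4 := h1 η ((hS0mem η).mpr hη)
    exact ⟨e η y, h4.1, h4.2.symm⟩

end Pool.Agent.Work.MP_7da6af_nt.Rc
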