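import Mathlib

/-! # Germs of curves on which two products of powers of absolute values are constant -/

set_option autoImplicit false

namespace Pool.Agent.Work.MP_7da6af_nt.Rc

open Filter Topology ComplexConjugate

variable {m : ℕ}

/-- the logarithmic derivative of the product of the `(y - a i) ^ (P i)` -/
noncomputable def AA (a : Fin m → ℂ) (P : Fin m → ℝ) (y : ℂ) : ℂ := ∑ i, (P i : ℂ) / (y - a i)

/-- the logarithm of the product of the `|y - a i| ^ (P i)` -/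
noncomputable def HH (a : Fin m → ℂ) (P : Fin m → ℝ) (y : ℂ) : ℝ := ∑ i, P i * Real.log ‖y - a i‖

/-- a local branch of the logarithm -/
theorem exists_log (a : Fin m → ℂ) (P : Fin m → ℝ) (y0 : ℂ) (h : ∀ i, y0 ≠ a i) :
    ∃ F : ℂ → ℂ, F y0 = 0 ∧ ∀ᶠ y in 𝓝 y0, HasDerivAt F (AA a P y) y ∧
      (F y).re = HH a P y - HH a P y0 := by
  have h0 : ∀ i, y0 - a i ≠ 0 := fun i => sub_ne_zero.mpr (h i)
  refine ⟨fun y => ∑ i, (P i : ℂ) * Complex.log ((y - a i) / (y0 - a i)), ?_, ?_⟩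
  · simp [div_self (h0 _)]
  · have h1 : ∀ i, ∀ᶠ y in 𝓝 y0, (y - a i) / (y0 - a i) ∈ Complex.slitPlane := by
      intro i
      have hc : ContinuousAt (fun y => (y - a i) / (y0 - a i)) y0 := by fun_prop
      refine hc.eventually_mem (Complex.isOpen_slitPlane.mem_nhds ?_)
      rw [div_self (h0 i)]
      exact Complex.one_mem_slitPlane
    have h2 : ∀ i, ∀ᶠ y in 𝓝 y0, y ≠ a i := fun i => isOpen_ne.mem_nhds (h i)
    filter_upwards [eventually_all.mpr h1, eventually_all.mpr h2] with y hy1 hy2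
    have h3 : ∀ i, y - a i ≠ 0 := fun i => sub_ne_zero.mpr (hy2 i)
    constructor
    · unfold AA
      refine HasDerivAt.fun_sum fun i _ => ?_
      have h4 : HasDerivAt (fun y => (y - a i) / (y0 - a i)) (1 / (y0 - a i)) y :=
        ((hasDerivAt_id y).sub_const (a i)).div_const (y0 - a i)
      have h5 := (h4.clog (hy1 i)).const_mul (P i : ℂ)
      have h6 : (P i : ℂ) / (y - a i) =
          (P i : ℂ) * (1 / (y0 - a i) / ((y - a i) / (y0 - a i))) := by
        rw [div_div_div_cancel_right₀ (h0 i), one_div, div_eq_mul_inv]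
      rw [h6]
      exact h5
    · rw [Complex.re_sum]
      unfold HH
      rw [← Finset.sum_sub_distrib]
      refine Finset.sum_congr rfl fun i _ => ?_
      rw [Complex.re_ofReal_mul, Complex.log_re, norm_div,
        Real.log_div (norm_ne_zero_iff.mpr (h3 i)) (norm_ne_zero_iff.mpr (h0 i))]
      ring

theorem continuousAt_HH (a : Fin m → ℂ) (P : Fin m → ℝ) (y0 : ℂ) (h : ∀ i, y0 ≠ a i) :
    ContinuousAt (HH a P) y0 := by
  have h0 : ∀ i, y0 - a i ≠ 0 := fun i => sub_ne_zero.mpr (h i)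
  unfold HH
  refine tendsto_finsetSum _ fun i _ => ?_
  have : ContinuousAt (fun y : ℂ => ‖y - a i‖) y0 := by fun_prop
  exact (this.log (norm_ne_zero_iff.mpr (h0 i))).const_mul (P i)

/-- the numerator of the logarithmic derivative -/
noncomputable def NA (a : Fin m → ℂ) (P : Fin m → ℝ) : Polynomial ℂ :=
  ∑ i, Polynomial.C (P i : ℂ) * ∏ j ∈ Finset.univ.erase i, (Polynomial.X - Polynomial.C (a j))

/-- the common denominator -/
noncomputable def MM (a : Fin m → ℂ) : Polynomial ℂ := ∏ j, (Polynomial.X - Polynomial.C (a j))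

theorem eval_MM (a : Fin m → ℂ) (y : ℂ) : (MM a).eval y = ∏ j, (y - a j) := by
  unfold MM
  rw [Polynomial.eval_prod]
  simp

theorem eval_NA (a : Fin m → ℂ) (P : Fin m → ℝ) (y : ℂ) (h : ∀ i, y ≠ a i) :
    (NA a P).eval y = AA a P y * (MM a).eval y := by
  unfold NA AA
  rw [Polynomial.eval_finsetSum, Finset.sum_mul, eval_MM]
  refine Finset.sum_congr rfl fun i _ => ?_
  rw [Polynomial.eval_mul, Polynomial.eval_C, Polynomial.eval_prod,
    ← Finset.mul_prod_erase Finset.univ (fun j => y - a j) (Finset.mem_univ i)]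
  have := sub_ne_zero.mpr (h i)
  simp only [Polynomial.eval_sub, Polynomial.eval_X, Polynomial.eval_C]
  field_simp

theorem eval_NA_cusp (a : Fin m → ℂ) (P : Fin m → ℝ) (i : Fin m) :
    (NA a P).eval (a i) = (P i : ℂ) * ∏ j ∈ Finset.univ.erase i, (a i - a j) := by
  unfold NA
  rw [Polynomial.eval_finsetSum, Finset.sum_eq_single i]
  · rw [Polynomial.eval_mul, Polynomial.eval_C, Polynomial.eval_prod]
    simp
  · intro j _ hj
    rw [Polynomial.eval_mul, Polynomial.eval_prod]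
    refine mul_eq_zero_of_right _ (Finset.prod_eq_zero (i := i) ?_ (by simp))
    exact Finset.mem_erase.mpr ⟨Ne.symm hj, Finset.mem_univ i⟩
  · intro h
    exact absurd (Finset.mem_univ i) h

theorem NA_ne (a : Fin m → ℂ) (ha : Function.Injective a) (P : Fin m → ℝ) (hP : P ≠ 0) :
    NA a P ≠ 0 := by
  obtain ⟨i, hi⟩ := Function.ne_iff.mp hP
  intro h
  have h1 := eval_NA_cusp a P i
  rw [h, Polynomial.eval_zero] at h1
  have h2 : ∏ j ∈ Finset.univ.erase i, (a i - a j) ≠ 0 := by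
    refine Finset.prod_ne_zero_iff.mpr fun j hj => ?_
    rw [sub_ne_zero]
    exact fun hij => (Finset.mem_erase.mp hj).1 (ha hij).symm
  have h3 : (P i : ℂ) ≠ 0 := by exact_mod_cast hi
  exact mul_ne_zero h3 h2 h1.symm

/-- the germ identity -/
theorem germ_id (F A Z : ℂ → ℂ) (hZ : AnalyticAt ℂ Z 0)
    (hF : ∀ᶠ y in 𝓝 (Z 0), HasDerivAt F (A y) y)
    (hfr : ∃ᶠ s in 𝓝[≠] (0 : ℂ), conj s = s ∧ (F (Z s)).re = 0) :
    ∀ᶠ s in 𝓝 (0 : ℂ), A (Z s) * deriv Z s + conj (A (Z (conj s)) * deriv Z (conj s)) = 0 := by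
  have hZd : ∀ᶠ s in 𝓝 (0 : ℂ), DifferentiableAt ℂ Z s :=
    Complex.analyticAt_iff_eventually_differentiableAt.mp hZ
  have hFZ : ∀ᶠ s in 𝓝 (0 : ℂ), HasDerivAt F (A (Z s)) (Z s) := hZ.continuousAt.eventually hF
  have hG1 : ∀ᶠ s in 𝓝 (0 : ℂ), HasDerivAt (fun s => F (Z s)) (A (Z s) * deriv Z s) s := by
    filter_upwards [hZd, hFZ] with s h1 h2
    exact h2.comp s h1.hasDerivAt
  have hconj : Tendsto (fun s : ℂ => conj s) (𝓝 0) (𝓝 0) := by
    have : ContinuousAt (fun s : ℂ => conj s) 0 := Complex.continuous_conj.continuousAt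
    simpa [ContinuousAt] using this
  have hG2 : ∀ᶠ s in 𝓝 (0 : ℂ), HasDerivAt (fun s => conj (F (Z (conj s))))
      (conj (A (Z (conj s)) * deriv Z (conj s))) s := by
    filter_upwards [hconj.eventually hG1] with s hs
    have h1 := hs.conj_conj
    rw [Complex.conj_conj] at h1
    exact h1
  set G : ℂ → ℂ := fun s => F (Z s) + conj (F (Z (conj s))) with hG
  have hGd : ∀ᶠ s in 𝓝 (0 : ℂ), HasDerivAt G
      (A (Z s) * deriv Z s + conj (A (Z (conj s)) * deriv Z (conj s))) s := by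
    filter_upwards [hG1, hG2] with s h1 h2
    exact h1.add h2
  have hGa : AnalyticAt ℂ G 0 := by
    rw [Complex.analyticAt_iff_eventually_differentiableAt]
    exact hGd.mono fun s hs => hs.differentiableAt
  have hG0 : ∀ᶠ s in 𝓝 (0 : ℂ), G s = 0 := by
    rw [← hGa.frequently_zero_iff_eventually_zero]
    refine hfr.mono fun s hs => ?_
    rw [hG]
    simp only
    rw [hs.1, Complex.add_conj, hs.2]
    simp
  filter_upwards [hGd, eventually_eventually_nhds.mpr hG0] with s h1 h2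
  have h3 : HasDerivAt G 0 s := (hasDerivAt_const s (0 : ℂ)).congr_of_eventuallyEq h2
  exact h1.unique h3

/-- a root of an analytic function -/
theorem exists_root (F : ℂ → ℂ) (y0 : ℂ) (hF : AnalyticAt ℂ F y0) (h0 : F y0 = 0)
    (hne : ¬ ∀ᶠ y in 𝓝 y0, F y = 0) :
    ∃ (k : ℕ) (φ : ℂ → ℂ), 0 < k ∧ AnalyticAt ℂ φ y0 ∧ φ y0 = 0 ∧ deriv φ y0 ≠ 0 ∧
      ∀ᶠ y in 𝓝 y0, F y = φ y ^ k := by
  obtain ⟨k, g, hg, hg0, hFg⟩ := hF.exists_eventuallyEq_pow_smul_nonzero_iff.mpr hne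
  have hk : 0 < k := by
    rcases Nat.eq_zero_or_pos k with rfl | h
    · exfalso
      have h1 := hFg.self_of_nhds
      rw [h0, pow_zero, one_smul] at h1
      exact hg0 h1.symm
    · exact h
  obtain ⟨c, hc⟩ := IsAlgClosed.exists_pow_nat_eq (g y0) hk
  have hc0 : c ≠ 0 := by
    rintro rfl
    rw [zero_pow hk.ne'] at hc
    exact hg0 hc.symm
  have hkC : (k : ℂ) ≠ 0 := by exact_mod_cast hk.ne'
  set e : ℂ → ℂ := fun y => c * Complex.exp (Complex.log (g y / g y0) / k) with he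
  have hgd : AnalyticAt ℂ (fun y => g y / g y0) y0 := hg.div analyticAt_const hg0
  have hslit : g y0 / g y0 ∈ Complex.slitPlane := by
    rw [div_self hg0]
    exact Complex.one_mem_slitPlane
  have hea : AnalyticAt ℂ e y0 := by
    refine analyticAt_const.mul ?_
    refine AnalyticAt.cexp ?_
    exact (hgd.clog hslit).div analyticAt_const hkC
  have he0 : e y0 = c := by
    rw [he]
    simp [div_self hg0]
  refine ⟨k, fun y => (y - y0) * e y, hk, ?_, ?_, ?_, ?_⟩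
  · exact (analyticAt_id.sub analyticAt_const).mul hea
  · simp
  · have h1 : HasDerivAt (fun y => (y - y0) * e y) (1 * e y0 + (y0 - y0) * deriv e y0) y0 :=
      ((hasDerivAt_id y0).sub_const y0).mul hea.differentiableAt.hasDerivAt
    rw [h1.deriv, he0]
    simpa using hc0
  · have hgne : ∀ᶠ y in 𝓝 y0, g y ≠ 0 := hg.continuousAt.eventually_ne hg0
    filter_upwards [hFg, hgne] with y h1 h2
    rw [h1, smul_eq_mul, mul_pow]
    congr 1
    rw [he]
    simp only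
    rw [mul_pow, hc, ← Complex.exp_nat_mul, mul_div_cancel₀ _ hkC,
      Complex.exp_log (div_ne_zero h2 hg0), mul_div_cancel₀ _ hg0]

/-- a real curve of points -/
theorem exists_curve (F G : ℂ → ℂ) (y0 : ℂ) (hF : AnalyticAt ℂ F y0) (h0 : F y0 = 0)
    (hne : ¬ ∀ᶠ y in 𝓝 y0, F y = 0)
    (hfr : ∃ᶠ y in 𝓝[≠] y0, (F y).re = 0 ∧ (G y).re = 0) :
    ∃ Z : ℂ → ℂ, AnalyticAt ℂ Z 0 ∧ Z 0 = y0 ∧ deriv Z 0 ≠ 0 ∧
      ∃ᶠ s in 𝓝[≠] (0 : ℂ), conj s = s ∧ (F (Z s)).re = 0 ∧ (G (Z s)).re = 0 := by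
  obtain ⟨k, φ, hk, hφ, hφ0, hφ', hFφ⟩ := exists_root F y0 hF h0 hne
  -- the directions
  set Ω : Set ℂ := {ω | ω ^ (2 * k) = -1} with hΩ
  have hΩfin : Ω.Finite := by
    have h1 : (Polynomial.X ^ (2 * k) - Polynomial.C (-1) : Polynomial ℂ) ≠ 0 :=
      Polynomial.X_pow_sub_C_ne_zero (by omega) _
    refine ((Polynomial.X ^ (2 * k) - Polynomial.C (-1) : Polynomial ℂ).roots.toFinset).finite_toSet.subset ?_
    intro ω hω
    have hω' : ω ^ (2 * k) = -1 := hω
    simp only [Finset.mem_coe, Multiset.mem_toFinset]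
    rw [Polynomial.mem_roots h1]
    simp [hω']
  have hφne : ∀ᶠ y in 𝓝[≠] y0, φ y ≠ 0 := by
    rcases hφ.eventually_eq_zero_or_eventually_ne_zero with h | h
    · exfalso
      apply hφ'
      have h1 : φ =ᶠ[𝓝 y0] fun _ => 0 := h
      rw [h1.deriv_eq]
      simp
    · exact h
  have hdir : ∃ᶠ y in 𝓝[≠] y0, ∃ ω ∈ Ω, φ y = (‖φ y‖ : ℂ) * ω ∧ (F y).re = 0 ∧ (G y).re = 0 := by
    refine (hfr.and_eventually (hφne.and (hFφ.filter_mono nhdsWithin_le_nhds))).mono ?_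
    rintro y ⟨⟨h1, h2⟩, h3, h4⟩
    have hn : (‖φ y‖ : ℂ) ≠ 0 := by exact_mod_cast (norm_ne_zero_iff.mpr h3)
    refine ⟨φ y / ‖φ y‖, ?_, ?_, h1, h2⟩
    · show (φ y / ‖φ y‖) ^ (2 * k) = -1
      have h5 : (F y) ^ 2 = - ((‖F y‖ : ℂ)) ^ 2 := by
        have h6 : F y = (F y).im * Complex.I := by
          apply Complex.ext
          · simp [h1]
          · simp
        have h7 : (‖F y‖ : ℂ) ^ 2 = ((F y).im : ℂ) ^ 2 := by
          have h8 : ‖F y‖ ^ 2 = (F y).im ^ 2 := by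
            rw [Complex.sq_norm, Complex.normSq_apply, h1]
            ring
          exact_mod_cast h8
        rw [h7]
        conv_lhs => rw [h6, mul_pow, Complex.I_sq]
        ring
      rw [h4, norm_pow] at h5
      push_cast at h5
      rw [div_pow, mul_comm 2 k, pow_mul, pow_mul, h5]
      rw [neg_div, div_self]
      exact pow_ne_zero _ (pow_ne_zero _ hn)
    · rw [mul_div_cancel₀ _ hn]
  obtain ⟨ω, hω, hfrω⟩ : ∃ ω ∈ Ω, ∃ᶠ y in 𝓝[≠] y0,
      φ y = (‖φ y‖ : ℂ) * ω ∧ (F y).re = 0 ∧ (G y).re = 0 := by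
    by_contra hcon
    push Not at hcon
    apply hdir
    have h1 := (eventually_all_finite hΩfin).mpr fun ω hω => hcon ω hω
    refine h1.mono fun y hy => ?_
    push Not
    exact hy
  have hω0 : ω ≠ 0 := by
    rintro rfl
    have h1 : (0 : ℂ) ^ (2 * k) = -1 := hω
    rw [zero_pow (by omega)] at h1
    norm_num at h1
  set ψ := hφ.hasStrictDerivAt.localInverse _ _ _ hφ' with hψ
  have hψa : AnalyticAt ℂ ψ 0 := by
    have := hφ.analyticAt_localInverse hφ'
    rwa [hφ0] at this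
  have hψl : ∀ᶠ y in 𝓝 y0, ψ (φ y) = y := hφ.hasStrictDerivAt.eventually_left_inverse hφ'
  have hψ0 : ψ 0 = y0 := by
    have := hψl.self_of_nhds
    rwa [hφ0] at this
  have hψd : deriv ψ 0 ≠ 0 := by
    have h1 := hφ.hasStrictDerivAt.to_localInverse hφ'
    rw [hφ0] at h1
    rw [h1.hasDerivAt.deriv]
    exact inv_ne_zero hφ'
  refine ⟨fun s => ψ (s * ω), ?_, ?_, ?_, ?_⟩
  · have h1 : AnalyticAt ℂ (fun s : ℂ => s * ω) 0 := analyticAt_id.mul analyticAt_const
    refine AnalyticAt.fun_comp ?_ h1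
    rw [zero_mul]
    exact hψa
  · simp [hψ0]
  · have h1 : HasDerivAt (fun s : ℂ => s * ω) (1 * ω) 0 := (hasDerivAt_id 0).mul_const ω
    have h2 : HasDerivAt ψ (deriv ψ 0) (0 * ω) := by
      rw [zero_mul]
      exact hψa.differentiableAt.hasDerivAt
    have h3 := h2.comp (0 : ℂ) h1
    have h4 : deriv (fun s => ψ (s * ω)) 0 = deriv ψ 0 * (1 * ω) := h3.deriv
    rw [h4]
    exact mul_ne_zero hψd (by rwa [one_mul])
  · have ht : Tendsto (fun y => (‖φ y‖ : ℂ)) (𝓝[≠] y0) (𝓝[≠] 0) := by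
      rw [tendsto_nhdsWithin_iff]
      constructor
      · have h1 : ContinuousAt (fun y => (‖φ y‖ : ℂ)) y0 :=
          Complex.continuous_ofReal.continuousAt.comp hφ.continuousAt.norm
        have h2 : Tendsto (fun y => (‖φ y‖ : ℂ)) (𝓝 y0) (𝓝 0) := by
          have := h1.tendsto
          rw [hφ0] at this
          simpa using this
        exact h2.mono_left nhdsWithin_le_nhds
      · filter_upwards [hφne] with y hy
        show (‖φ y‖ : ℂ) ≠ 0
        exact_mod_cast (norm_ne_zero_iff.mpr hy)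
    refine ht.frequently ?_
    refine (hfrω.and_eventually (hψl.filter_mono nhdsWithin_le_nhds)).mono ?_
    rintro y ⟨⟨h1, h2, h3⟩, h4⟩
    refine ⟨Complex.conj_ofReal _, ?_⟩
    show (F (ψ ((‖φ y‖ : ℂ) * ω))).re = 0 ∧ (G (ψ ((‖φ y‖ : ℂ) * ω))).re = 0
    rw [← h1, h4]
    exact ⟨h2, h3⟩

/-- The germ of a curve through an accumulation point. -/
theorem germs (a : Fin m → ℂ) (ha : Function.Injective a) (P Q : Fin m → ℝ) (hP : P ≠ 0)
    (y0 : ℂ) (hy0 : ∀ i, y0 ≠ a i) (cP cQ : ℝ)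
    (hacc : ∃ᶠ y in 𝓝[≠] y0, HH a P y = cP ∧ HH a Q y = cQ) :
    ∃ Z : ℂ → ℂ, AnalyticAt ℂ Z 0 ∧ Z 0 = y0 ∧ deriv Z 0 ≠ 0 ∧
      (∀ᶠ s in 𝓝 (0 : ℂ), AA a P (Z s) * deriv Z s +
        conj (AA a P (Z (conj s)) * deriv Z (conj s)) = 0) ∧
      ∀ᶠ s in 𝓝 (0 : ℂ), AA a Q (Z s) * deriv Z s +
        conj (AA a Q (Z (conj s)) * deriv Z (conj s)) = 0 := by
  obtain ⟨F, hF0, hF⟩ := exists_log a P y0 hy0
  obtain ⟨G, hG0, hG⟩ := exists_log a Q y0 hy0
  have hval : ∀ (R : Fin m → ℝ) (c : ℝ), (∃ᶠ y in 𝓝[≠] y0, HH a R y = c) → HH a R y0 = c := by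
    intro R c hR
    by_contra hne
    have h1 : ∀ᶠ y in 𝓝 y0, HH a R y ≠ c := (continuousAt_HH a R y0 hy0).eventually_ne hne
    exact hR (h1.filter_mono nhdsWithin_le_nhds)
  have hP0 := hval P cP (hacc.mono fun y h => h.1)
  have hQ0 := hval Q cQ (hacc.mono fun y h => h.2)
  have hFa : AnalyticAt ℂ F y0 := by
    rw [Complex.analyticAt_iff_eventually_differentiableAt]
    exact hF.mono fun y hy => hy.1.differentiableAt
  have hne : ¬ ∀ᶠ y in 𝓝 y0, F y = 0 := by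
    intro hz
    have h1 : ∀ᶠ y in 𝓝 y0, (NA a P).eval y = 0 := by
      filter_upwards [eventually_eventually_nhds.mpr hz, hF,
        eventually_all.mpr fun i => (isOpen_ne.mem_nhds (hy0 i) : ∀ᶠ y in 𝓝 y0, y ≠ a i)]
        with y hy1 hy2 hy3
      have h3 : HasDerivAt F 0 y := (hasDerivAt_const y (0 : ℂ)).congr_of_eventuallyEq hy1
      rw [eval_NA a P y hy3, hy2.1.unique h3, zero_mul]
    have h2 : {y : ℂ | (NA a P).eval y = 0}.Finite := by
      refine ((NA a P).roots.toFinset).finite_toSet.subset ?_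
      intro y hy
      simp only [Finset.mem_coe, Multiset.mem_toFinset]
      rw [Polynomial.mem_roots (NA_ne a ha P hP)]
      exact hy
    have h3 : ∀ᶠ y in 𝓝[≠] y0, y ∉ {y : ℂ | (NA a P).eval y = 0} := by
      have h4 : {y : ℂ | (NA a P).eval y = 0}ᶜ ∈ 𝓝[≠] y0 := by
        have h5 := (h2.subset (Set.sdiff_subset (t := {y0}))).isClosed.isOpen_compl
        have h6 : y0 ∈ ({y : ℂ | (NA a P).eval y = 0} \ {y0})ᶜ := by simp
        have h7 := h5.mem_nhds h6
        rw [mem_nhdsWithin_iff_exists_mem_nhds_inter]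
        refine ⟨_, h7, ?_⟩
        rintro y ⟨hy1, hy2⟩ hy3
        exact hy1 ⟨hy3, hy2⟩
      exact h4
    obtain ⟨y, hy1, hy2⟩ := ((h1.filter_mono nhdsWithin_le_nhds).and h3).exists
    exact hy2 hy1
  have hfr : ∃ᶠ y in 𝓝[≠] y0, (F y).re = 0 ∧ (G y).re = 0 := by
    refine (hacc.and_eventually ((hF.and hG).filter_mono nhdsWithin_le_nhds)).mono ?_
    rintro y ⟨⟨h1, h2⟩, ⟨-, h3⟩, -, h4⟩
    rw [h3, h4, h1, h2, hP0, hQ0]
    simp
  obtain ⟨Z, hZ, hZ0, hZd, hZfr⟩ := exists_curve F G y0 hFa hF0 hne hfr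
  refine ⟨Z, hZ, hZ0, hZd, ?_, ?_⟩
  · refine germ_id F (AA a P) Z hZ ?_ (hZfr.mono fun s h => ⟨h.1, h.2.1⟩)
    rw [hZ0]
    exact hF.mono fun y hy => hy.1
  · refine germ_id G (AA a Q) Z hZ ?_ (hZfr.mono fun s h => ⟨h.1, h.2.2⟩)
    rw [hZ0]
    exact hG.mono fun y hy => hy.1

end Pool.Agent.Work.MP_7da6af_nt.Rc
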