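import Pool.Agent.Work.MP_7da6af_nt.Rc.Branch

/-! # The values over all points -/

set_option autoImplicit false

namespace Pool.Agent.Work.MP_7da6af_nt.Rc

open Filter Topology ComplexConjugate
open Polynomial (C X derivative evalEval)

variable {m : ℕ}

theorem conj_AA (a : Fin m → ℂ) (P : Fin m → ℝ) (y : ℂ) :
    conj (AA a P y) = AA (fun i => conj (a i)) P (conj y) := by
  unfold AA
  rw [map_sum]
  refine Finset.sum_congr rfl fun i _ => ?_
  rw [map_div₀, map_sub, Complex.conj_ofReal]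

/-- the germ of the correspondence -/
theorem exists_grm (a : Fin m → ℂ) (ha : Function.Injective a) (P Q : Fin m → ℝ)
    (hP : P ≠ 0) (y0 : ℂ) (hy0 : ∀ i, y0 ≠ a i) (cP cQ : ℝ)
    (hacc : ∃ᶠ y in 𝓝[≠] y0, HH a P y = cP ∧ HH a Q y = cQ) :
    ∃ Z W : ℂ → ℂ, Grm a (fun i => conj (a i)) P Q Z W := by
  obtain ⟨Z, hZ, hZ0, hZd, hZP, hZQ⟩ := germs a ha P Q hP y0 hy0 cP cQ hacc
  have hconj : Tendsto (fun s : ℂ => conj s) (𝓝 0) (𝓝 0) := by
    have : ContinuousAt (fun s : ℂ => conj s) 0 := Complex.continuous_conj.continuousAt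
    simpa [ContinuousAt] using this
  have hder : ∀ s, deriv (fun s => conj (Z (conj s))) s = conj (deriv Z (conj s)) := by
    intro s
    have := deriv_conj_conj (f := Z)
    exact congrFun this s
  refine ⟨Z, fun s => conj (Z (conj s)), hZ, ?_, hZd, ?_, ?_, ?_, ?_, ?_⟩
  · rw [Complex.analyticAt_iff_eventually_differentiableAt] at hZ ⊢
    filter_upwards [hconj.eventually hZ] with s hs
    have h1 := hs.conj_conj
    rw [Complex.conj_conj] at h1
    exact h1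
  · rw [hder, map_zero]
    exact (map_ne_zero _).mpr hZd
  · rw [hZ0]
    exact hy0
  · intro i h
    simp only [map_zero] at h
    rw [hZ0] at h
    exact hy0 i (RingHom.injective _ h)
  · filter_upwards [hZP] with s hs
    rw [hder, ← conj_AA, ← map_mul]
    exact hs
  · filter_upwards [hZQ] with s hs
    rw [hder, ← conj_AA, ← map_mul]
    exact hs

/-- the values over a point do not depend on the point -/
theorem VS_const (a b : Fin m → ℂ) (R : Fin m → ℝ) (T α β : Polynomial (Polynomial ℂ))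
    (r c : Polynomial ℂ) (hsep : α * T + β * derivative T = C r)
    (hdvd : T ∣ C c * GR a b R T) (Θ : Polynomial ℂ) (hΘ : Θ ≠ 0)
    (h : ∀ y, Θ.eval y ≠ 0 → (∀ i, y ≠ a i) ∧ T.leadingCoeff.eval y ≠ 0 ∧ r.eval y ≠ 0 ∧
      c.eval y ≠ 0 ∧ ∀ i, T.evalEval y (b i) ≠ 0)
    (y1 y2 : ℂ) (h1 : Θ.eval y1 ≠ 0) (h2 : Θ.eval y2 ≠ 0) :
    VS a b R T y1 = VS a b R T y2 := by
  have hfin : {y : ℂ | Θ.eval y = 0}.Finite := by
    refine (Θ.roots.toFinset).finite_toSet.subset ?_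
    intro y hy
    simp only [Finset.mem_coe, Multiset.mem_toFinset]
    rw [Polynomial.mem_roots hΘ]
    exact hy
  have hconn : IsPreconnected ({y : ℂ | Θ.eval y = 0}ᶜ) := by
    refine (Set.Countable.isConnected_compl_of_one_lt_rank ?_ hfin.countable).isPreconnected
    rw [Complex.rank_real_complex]
    exact_mod_cast Nat.one_lt_two
  have : PreconnectedSpace ↥({y : ℂ | Θ.eval y = 0}ᶜ) :=
    isPreconnected_iff_preconnectedSpace.mp hconn
  have hloc : IsLocallyConstant (fun y : ↥({y : ℂ | Θ.eval y = 0}ᶜ) => VS a b R T (y : ℂ)) := by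
    rw [IsLocallyConstant.iff_eventually_eq]
    intro y
    obtain ⟨k1, k2, k3, k4, k5⟩ := h y y.2
    have h3 := VS_locally a b R T α β r c hsep hdvd y k1 k2 k3 k4 k5
    exact (continuous_subtype_val.tendsto y).eventually h3
  exact hloc.apply_eq_of_preconnectedSpace ⟨y1, h1⟩ ⟨y2, h2⟩

/-- Every point, with finitely many exceptions, has a partner. -/
theorem exists_partner (a : Fin m → ℂ) (ha : Function.Injective a) (P Q : Fin m → ℝ)
    (hPQ : ∃ i j, P i * Q j - Q i * P j ≠ 0) (y0 : ℂ) (hy0 : ∀ i, y0 ≠ a i) (cP cQ : ℝ)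
    (hacc : ∃ᶠ y in 𝓝[≠] y0, HH a P y = cP ∧ HH a Q y = cQ) :
    ∃ (T : Polynomial (Polynomial ℂ)) (Θ : Polynomial ℂ) (K : ℝ), T ≠ 0 ∧ Θ ≠ 0 ∧
      ∀ y, Θ.eval y ≠ 0 → (∀ i, y ≠ a i) ∧
        ∃ η, T.evalEval y η = 0 ∧ (∀ i, η ≠ conj (a i)) ∧
          |HH a P y + HH (fun i => conj (a i)) P η| ≤ K ∧
          |HH a Q y + HH (fun i => conj (a i)) Q η| ≤ K := by
  classical
  set b : Fin m → ℂ := fun i => conj (a i) with hb
  have hbi : Function.Injective b := fun i j hij => ha (RingHom.injective _ hij)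
  have hP : P ≠ 0 := by
    rintro rfl
    obtain ⟨i, j, hij⟩ := hPQ
    exact hij (by simp)
  obtain ⟨Z, W, hG⟩ := exists_grm a ha P Q hP y0 hy0 cP cQ hacc
  obtain ⟨T, hT⟩ := exists_min ⟨RR a b P Q, RR_ne ha hbi hPQ, hG.van_RR⟩
  have hTpos := hT.pos hG.hZ hG.hZd
  obtain ⟨α, β, r, hr, hsep⟩ := hT.sep hG.hZ hG.hW hG.hZd
  obtain ⟨cp, hcp, hdP⟩ := hT.dvd _ (hG.van_GR hT.van)
  obtain ⟨cq, hcq, hdQ⟩ := hT.dvd _ (hG.symm.van_GR hT.van)
  set Θ : Polynomial ℂ := MM a * (T.leadingCoeff * (r * (cp * (cq * ∏ i, T.eval (C (b i))))))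
    with hΘ
  have hMM : MM a ≠ 0 := by
    unfold MM
    exact Finset.prod_ne_zero_iff.mpr fun i _ => Polynomial.X_sub_C_ne_zero _
  have hΘ0 : Θ ≠ 0 := by
    refine mul_ne_zero hMM (mul_ne_zero (Polynomial.leadingCoeff_ne_zero.mpr hT.ne)
      (mul_ne_zero hr (mul_ne_zero hcp (mul_ne_zero hcq ?_))))
    exact Finset.prod_ne_zero_iff.mpr fun i _ => hT.eval_ne hG.hZ hG.hW hG.hWd _
  have hΘe : ∀ y, Θ.eval y ≠ 0 → (∀ i, y ≠ a i) ∧ T.leadingCoeff.eval y ≠ 0 ∧ r.eval y ≠ 0 ∧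
      cp.eval y ≠ 0 ∧ cq.eval y ≠ 0 ∧ ∀ i, T.evalEval y (b i) ≠ 0 := by
    intro y hy
    rw [hΘ, Polynomial.eval_mul, Polynomial.eval_mul, Polynomial.eval_mul, Polynomial.eval_mul,
      Polynomial.eval_mul, Polynomial.eval_prod, eval_MM] at hy
    simp only [mul_ne_zero_iff, Finset.prod_ne_zero_iff, Finset.mem_univ, forall_true_left,
      sub_ne_zero] at hy
    obtain ⟨h1, h2, h3, h4, h5, h6⟩ := hy
    exact ⟨h1, h2, h3, h4, h5, h6⟩
  obtain ⟨y1, hy1⟩ : ∃ y, Θ.eval y ≠ 0 := by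
    by_contra hcon
    push Not at hcon
    exact hΘ0 (Polynomial.funext fun y => by rw [hcon y, Polynomial.eval_zero])
  have hlead : ∀ y, Θ.eval y ≠ 0 → T.map (Polynomial.evalRingHom y) ≠ 0 := by
    intro y hy h0
    have h4 := congrArg (fun q => Polynomial.coeff q T.natDegree) h0
    simp only [Polynomial.coeff_map, Polynomial.coeff_zero, Polynomial.coe_evalRingHom] at h4
    exact (hΘe y hy).2.1 h4
  have hfin : ∀ R : Fin m → ℝ, (VS a b R T y1).Finite := by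
    intro R
    refine ((T.map (Polynomial.evalRingHom y1)).roots.toFinset.image
      fun η => HH a R y1 + HH b R η).finite_toSet.subset ?_
    rintro x ⟨η, hη, rfl⟩
    simp only [Finset.coe_image, Set.mem_image, Finset.mem_coe, Multiset.mem_toFinset]
    refine ⟨η, ?_, rfl⟩
    rw [Polynomial.mem_roots (hlead y1 hy1), Polynomial.IsRoot.def, eval_sp]
    exact hη
  have hbd : ∀ R : Fin m → ℝ, ∃ K : ℝ, ∀ x ∈ VS a b R T y1, |x| ≤ K := by
    intro R
    obtain ⟨K, hK⟩ := ((hfin R).image fun x => |x|).bddAbove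
    exact ⟨K, fun x hx => hK ⟨x, hx, rfl⟩⟩
  obtain ⟨KP, hKP⟩ := hbd P
  obtain ⟨KQ, hKQ⟩ := hbd Q
  refine ⟨T, Θ, max KP KQ, hT.ne, hΘ0, fun y hy => ?_⟩
  obtain ⟨k1, k2, k3, k4, k5, k6⟩ := hΘe y hy
  refine ⟨k1, ?_⟩
  obtain ⟨η, hη⟩ : ∃ η, (T.map (Polynomial.evalRingHom y)).IsRoot η := by
    refine IsAlgClosed.exists_root _ ?_
    have h1 : (T.map (Polynomial.evalRingHom y)).natDegree = T.natDegree :=
      Polynomial.natDegree_map_of_leadingCoeff_ne_zero _ k2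
    rw [Polynomial.degree_eq_natDegree (hlead y hy), h1]
    exact_mod_cast hTpos.ne'
  rw [Polynomial.IsRoot.def, eval_sp] at hη
  refine ⟨η, hη, fun i h0 => ?_, ?_, ?_⟩
  · apply k6 i
    have : b i = η := h0.symm
    rw [this]
    exact hη
  · refine (hKP _ ?_).trans (le_max_left _ _)
    rw [← VS_const a b P T α β r cp hsep hdP Θ hΘ0 (fun y hy => by
      obtain ⟨l1, l2, l3, l4, l5, l6⟩ := hΘe y hy
      exact ⟨l1, l2, l3, l4, l6⟩) y y1 hy hy1]
    exact ⟨η, hη, rfl⟩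
  · refine (hKQ _ ?_).trans (le_max_right _ _)
    rw [← VS_const a b Q T α β r cq hsep hdQ Θ hΘ0 (fun y hy => by
      obtain ⟨l1, l2, l3, l4, l5, l6⟩ := hΘe y hy
      exact ⟨l1, l2, l3, l5, l6⟩) y y1 hy hy1]
    exact ⟨η, hη, rfl⟩

end Pool.Agent.Work.MP_7da6af_nt.Rc
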