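import Mathlib

/-! # Integer vectors and real linear forms -/

set_option autoImplicit false

namespace Pool.Agent.Work.MP_7da6af_nt.Rc

theorem inj_rat {s r : ℕ} (M : Fin s → Fin r → ℤ)
    (h : ∀ x : Fin r → ℤ, (∀ i, ∑ l, x l * M i l = 0) → x = 0)
    (x : Fin r → ℚ) (hx : ∀ i, ∑ l, x l * (M i l : ℚ) = 0) : x = 0 := by
  obtain ⟨b, hb⟩ := IsLocalization.exist_integer_multiples_of_finite (nonZeroDivisors ℤ) x
  have hb' : ∀ l, ∃ z : ℤ, (z : ℚ) = (b : ℤ) * x l := by
    intro l
    obtain ⟨z, hz⟩ := hb l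
    refine ⟨z, ?_⟩
    rw [zsmul_eq_mul] at hz
    exact hz
  choose z hz using hb'
  have hz0 : z = 0 := by
    refine h z fun i => ?_
    have h1 : ((∑ l, z l * M i l : ℤ) : ℚ) = (b : ℤ) * ∑ l, x l * (M i l : ℚ) := by
      push_cast
      rw [Finset.mul_sum]
      refine Finset.sum_congr rfl fun l _ => ?_
      rw [hz]
      ring
    rw [hx i, mul_zero] at h1
    exact_mod_cast h1
  funext l
  have h2 := hz l
  rw [hz0] at h2
  have hbne : ((b : ℤ) : ℚ) ≠ 0 := by
    exact_mod_cast nonZeroDivisors.coe_ne_zero b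
  simp only [Pi.zero_apply, Int.cast_zero] at h2
  exact (mul_eq_zero.mp h2.symm).resolve_left hbne

theorem inj_real {s r : ℕ} (M : Fin s → Fin r → ℤ)
    (h : ∀ x : Fin r → ℤ, (∀ i, ∑ l, x l * M i l = 0) → x = 0)
    (x : Fin r → ℝ) (hx : ∀ i, ∑ l, x l * (M i l : ℝ) = 0) : x = 0 := by
  funext l
  rw [Pi.zero_apply, ← Module.forall_dual_apply_eq_zero_iff ℚ]
  intro φ
  have h1 := inj_rat M h (fun l => φ (x l)) fun i => by
    have h2 := congrArg φ (hx i)
    rw [map_zero, map_sum] at h2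
    rw [← h2]
    refine Finset.sum_congr rfl fun l _ => ?_
    have h3 : x l * (M i l : ℝ) = (M i l : ℤ) • x l := by
      rw [zsmul_eq_mul, mul_comm]
    rw [h3, map_zsmul, zsmul_eq_mul, mul_comm]
  exact congrFun h1 l

theorem rank_le {ν : ℕ} (p q : Fin ν → ℝ) (hpq : LinearIndependent ℝ ![p, q])
    (Λ : Submodule ℤ (Fin ν → ℤ)) (hp : ∀ z ∈ Λ, ∑ l, p l * (z l : ℝ) = 0)
    (hq : ∀ z ∈ Λ, ∑ l, q l * (z l : ℝ) = 0) : Module.finrank ℤ Λ + 2 ≤ ν := by
  set M : Matrix (Fin 2) (Fin ν) ℝ := Matrix.of ![p, q] with hM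
  have hfin : Module.finrank ℝ (LinearMap.ker (Matrix.mulVecLin M)) + 2 = ν := by
    have h1 := LinearMap.finrank_range_add_finrank_ker (Matrix.mulVecLin M)
    have h2 : M.rank = 2 := by
      have := LinearIndependent.rank_matrix (M := M) hpq
      rwa [Fintype.card_fin] at this
    have h3 : Module.finrank ℝ (LinearMap.range (Matrix.mulVecLin M)) = 2 := h2
    rw [h3, Module.finrank_fin_fun] at h1
    omega
  have hmem : ∀ v : Fin ν → ℝ, v ∈ LinearMap.ker (Matrix.mulVecLin M) ↔
      ∑ l, p l * v l = 0 ∧ ∑ l, q l * v l = 0 := by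
    intro v
    rw [LinearMap.mem_ker, Matrix.mulVecLin_apply]
    constructor
    · intro h0
      exact ⟨congrFun h0 0, congrFun h0 1⟩
    · rintro ⟨h0, h1⟩
      funext i
      fin_cases i
      · exact h0
      · exact h1
  set b := Module.finBasis ℤ Λ with hb
  have hu : ∀ k, (fun l => (((b k : Fin ν → ℤ) l : ℤ) : ℝ)) ∈
      LinearMap.ker (Matrix.mulVecLin M) := fun k =>
    (hmem _).mpr ⟨hp _ (b k).2, hq _ (b k).2⟩
  set u : Fin (Module.finrank ℤ Λ) → LinearMap.ker (Matrix.mulVecLin M) := fun k => ⟨_, hu k⟩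
    with hudef
  have hli : LinearIndependent ℝ u := by
    rw [Fintype.linearIndependent_iff]
    intro g hg
    have h1 := inj_real (fun (l : Fin ν) k => (b k : Fin ν → ℤ) l) (fun x hx => by
      have h2 : ∑ k, x k • b k = 0 := by
        apply Subtype.ext
        funext l
        have := hx l
        simp only [Submodule.coe_sum, Submodule.coe_smul, Finset.sum_apply, Pi.smul_apply,
          smul_eq_mul, ZeroMemClass.coe_zero, Pi.zero_apply]
        exact this
      have h3 := (Fintype.linearIndependent_iff.mp b.linearIndependent) x h2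
      exact funext h3) g (fun l => by
      have h2 := congrArg (fun w : LinearMap.ker (Matrix.mulVecLin M) => (w : Fin ν → ℝ) l) hg
      simp only [Submodule.coe_sum, Submodule.coe_smul, Finset.sum_apply, Pi.smul_apply,
        smul_eq_mul, ZeroMemClass.coe_zero, Pi.zero_apply, hudef] at h2
      exact h2)
    exact fun k => congrFun h1 k
  have := hli.fintype_card_le_finrank
  rw [Fintype.card_fin] at this
  omega

/-- a nonzero minor -/
theorem exists_minor {s ν : ℕ} (n : Fin s → Fin ν → ℤ)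
    (h : ∀ x : Fin ν → ℤ, (∀ i, ∑ l, x l * n i l = 0) → x = 0)
    (p q : Fin ν → ℝ) (hpq : LinearIndependent ℝ ![p, q]) :
    ∃ i j, (∑ l, p l * (n i l : ℝ)) * (∑ l, q l * (n j l : ℝ)) -
      (∑ l, q l * (n i l : ℝ)) * (∑ l, p l * (n j l : ℝ)) ≠ 0 := by
  by_contra hcon
  push Not at hcon
  rw [LinearIndependent.pair_iff] at hpq
  by_cases hP : ∃ i, ∑ l, p l * (n i l : ℝ) ≠ 0
  · obtain ⟨i, hi⟩ := hP
    have h1 := inj_real n h
      (fun l => (∑ l, q l * (n i l : ℝ)) * p l - (∑ l, p l * (n i l : ℝ)) * q l) fun j => by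
        have h2 := hcon i j
        have h3 : ∑ l, ((∑ l, q l * (n i l : ℝ)) * p l - (∑ l, p l * (n i l : ℝ)) * q l) *
            (n j l : ℝ) = (∑ l, q l * (n i l : ℝ)) * (∑ l, p l * (n j l : ℝ)) -
              (∑ l, p l * (n i l : ℝ)) * ∑ l, q l * (n j l : ℝ) := by
          rw [Finset.mul_sum, Finset.mul_sum, ← Finset.sum_sub_distrib]
          refine Finset.sum_congr rfl fun l _ => ?_
          ring
        rw [h3]
        linarith
    have h2 := hpq (∑ l, q l * (n i l : ℝ)) (-(∑ l, p l * (n i l : ℝ))) (by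
      funext l
      have := congrFun h1 l
      simp only [Pi.add_apply, Pi.smul_apply, smul_eq_mul, Pi.zero_apply] at this ⊢
      linarith)
    exact hi (by linarith [h2.2])
  · push Not at hP
    have h1 := inj_real n h p hP
    have h2 := hpq 1 0 (by rw [h1]; simp)
    exact one_ne_zero h2.1

end Pool.Agent.Work.MP_7da6af_nt.Rc
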