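import Pool.Agent.Work.MP_7da6af_nt.Rc.Asym

/-! # The slopes of an algebraic function are rational -/

set_option autoImplicit false

namespace Pool.Agent.Work.MP_7da6af_nt.Rc

open Filter Topology ComplexConjugate

theorem evalEval_zero (R : Polynomial (Polynomial ℂ)) (h : ∀ x w : ℂ, R.evalEval x w = 0) :
    R = 0 := by
  refine Polynomial.eq_zero_of_infinite_isRoot R ?_
  have h1 : (Set.range (Polynomial.C : ℂ → Polynomial ℂ)).Infinite :=
    Set.infinite_range_of_injective Polynomial.C_injective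
  refine h1.mono ?_
  rintro _ ⟨w, rfl⟩
  show R.eval (Polynomial.C w) = 0
  exact Polynomial.funext fun x => by
    rw [Polynomial.eval_zero]
    exact h x w

theorem exists_terms (R : Polynomial (Polynomial ℂ)) (hR : R ≠ 0) :
    ∃ (D : Finset (ℕ × ℕ)) (c : ℕ × ℕ → ℂ), D.Nonempty ∧ (∀ d ∈ D, c d ≠ 0) ∧
      ∀ x w : ℂ, R.evalEval x w = ∑ d ∈ D, c d * x ^ d.1 * w ^ d.2 := by
  classical
  set N := R.natDegree + 1 with hN
  set M := (Finset.range N).sup (fun j => (R.coeff j).natDegree) + 1 with hM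
  set c : ℕ × ℕ → ℂ := fun d => (R.coeff d.2).coeff d.1 with hc
  have key : ∀ x w : ℂ, R.evalEval x w =
      ∑ d ∈ (Finset.range M ×ˢ Finset.range N).filter (fun d => c d ≠ 0),
        c d * x ^ d.1 * w ^ d.2 := by
    intro x w
    rw [Finset.sum_filter_of_ne (by
      intro d _ h h0
      apply h
      rw [h0]
      ring)]
    rw [Finset.sum_product_right]
    unfold Polynomial.evalEval
    rw [Polynomial.eval_eq_sum_range (p := R), Polynomial.eval_finsetSum]
    refine Finset.sum_congr rfl fun j hj => ?_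
    have h1 : (R.coeff j).natDegree < M := by
      have := Finset.le_sup (f := fun j => (R.coeff j).natDegree) hj
      omega
    rw [Polynomial.eval_mul, Polynomial.eval_pow, Polynomial.eval_C,
      Polynomial.eval_eq_sum_range' h1, Finset.sum_mul]
  refine ⟨_, c, ?_, ?_, key⟩
  · by_contra hne
    rw [Finset.not_nonempty_iff_eq_empty] at hne
    exact hR (evalEval_zero R fun x w => by rw [key, hne, Finset.sum_empty])
  · intro d hd
    exact (Finset.mem_filter.mp hd).2

theorem newton (l : Ultrafilter ℕ) (R : Polynomial (Polynomial ℂ)) (hR : R ≠ 0)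
    (x w : ℕ → ℂ) (σ τ : ℕ → ℝ) (e e' : ℝ) (he : e = 1 ∨ e = -1) (he' : e' = 1 ∨ e' = -1)
    (h0 : ∀ᶠ k in (l : Filter ℕ), R.evalEval (x k) (w k) = 0)
    (hx : ∀ᶠ k in (l : Filter ℕ), x k ≠ 0) (hw : ∀ᶠ k in (l : Filter ℕ), w k ≠ 0)
    (hxσ : ∀ k, Real.log ‖x k‖ = e * σ k) (hwτ : ∀ k, Real.log ‖w k‖ = e' * τ k)
    (hσ : Tendsto σ l atBot) (lam : ℝ) (hlam : 0 < lam)
    (hq : Tendsto (fun k => τ k / σ k) l (𝓝 lam)) :
    ∃ p q : ℕ, 0 < p ∧ 0 < q ∧ lam = p / q := by
  classical
  obtain ⟨D, c, hD, hc, hsum⟩ := exists_terms R hR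
  set ω : ℕ × ℕ → ℝ := fun d => e * d.1 + e' * d.2 * lam with hω
  obtain ⟨d0, hd0, hmin⟩ := Finset.exists_min_image D ω hD
  by_cases H : ∀ d ∈ D, ω d = ω d0 → d = d0
  · exfalso
    set term : ℕ × ℕ → ℕ → ℂ := fun d k => c d * x k ^ d.1 * w k ^ d.2 with hterm
    have hσne : ∀ᶠ k in (l : Filter ℕ), σ k < 0 := hσ.eventually_lt_atBot 0
    have hrat : ∀ d ∈ D.erase d0, Tendsto (fun k => term d k / term d0 k) l (𝓝 0) := by
      intro d hd
      obtain ⟨hne, hdD⟩ := Finset.mem_erase.mp hd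
      have hlt : 0 < ω d - ω d0 := by
        rcases (hmin d hdD).lt_or_eq with h | h
        · linarith
        · exact absurd (H d hdD h.symm) hne
      rw [tendsto_zero_iff_norm_tendsto_zero]
      have h1 : Tendsto (fun k => e * ((d.1 : ℝ) - d0.1) + e' * ((d.2 : ℝ) - d0.2) * (τ k / σ k)) l
          (𝓝 (ω d - ω d0)) := by
        have h2 := (hq.const_mul (e' * ((d.2 : ℝ) - d0.2))).const_add (e * ((d.1 : ℝ) - d0.1))
        have h3 : ω d - ω d0 = e * ((d.1 : ℝ) - d0.1) + e' * ((d.2 : ℝ) - d0.2) * lam := by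
          simp only [hω]
          ring
        rw [h3]
        exact h2
      have h2 : Tendsto (fun k => Real.log ‖c d / c d0‖ +
          σ k * (e * ((d.1 : ℝ) - d0.1) + e' * ((d.2 : ℝ) - d0.2) * (τ k / σ k))) l atBot :=
        tendsto_atBot_add_const_left _ _ (hσ.atBot_mul_pos hlt h1)
      have h3 := Real.tendsto_exp_atBot.comp h2
      refine h3.congr' ?_
      filter_upwards [hx, hw, hσne] with k k1 k2 k3
      have hσk : σ k ≠ 0 := k3.ne
      have hcd := hc d hdD
      have hcd0 := hc d0 hd0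
      have hpos : 0 < ‖term d k / term d0 k‖ := by
        rw [norm_pos_iff]
        simp only [hterm]
        exact div_ne_zero (mul_ne_zero (mul_ne_zero hcd (pow_ne_zero _ k1)) (pow_ne_zero _ k2))
          (mul_ne_zero (mul_ne_zero hcd0 (pow_ne_zero _ k1)) (pow_ne_zero _ k2))
      rw [Function.comp_apply, ← Real.exp_log hpos]
      congr 1
      have nx : ‖x k‖ ≠ 0 := norm_ne_zero_iff.mpr k1
      have nw : ‖w k‖ ≠ 0 := norm_ne_zero_iff.mpr k2
      have nd : ‖c d‖ ≠ 0 := norm_ne_zero_iff.mpr hcd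
      have nd0 : ‖c d0‖ ≠ 0 := norm_ne_zero_iff.mpr hcd0
      simp only [hterm]
      rw [norm_div, norm_div, norm_mul, norm_mul, norm_mul, norm_mul, norm_pow, norm_pow, norm_pow,
        norm_pow, Real.log_div nd nd0, Real.log_div (mul_ne_zero (mul_ne_zero nd (pow_ne_zero _ nx))
          (pow_ne_zero _ nw)) (mul_ne_zero (mul_ne_zero nd0 (pow_ne_zero _ nx))
          (pow_ne_zero _ nw)), Real.log_mul (mul_ne_zero nd (pow_ne_zero _ nx)) (pow_ne_zero _ nw),
        Real.log_mul (mul_ne_zero nd0 (pow_ne_zero _ nx)) (pow_ne_zero _ nw),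
        Real.log_mul nd (pow_ne_zero _ nx), Real.log_mul nd0 (pow_ne_zero _ nx),
        Real.log_pow, Real.log_pow, Real.log_pow, Real.log_pow, hxσ, hwτ]
      field_simp
      ring
    have hs0 : Tendsto (fun k => ∑ d ∈ D.erase d0, term d k / term d0 k) l (𝓝 0) := by
      have := tendsto_finsetSum (D.erase d0) hrat
      rwa [Finset.sum_const_zero] at this
    have hs1 : ∀ᶠ k in (l : Filter ℕ), ∑ d ∈ D.erase d0, term d k / term d0 k = -1 := by
      filter_upwards [hx, hw, h0] with k k1 k2 k3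
      rw [hsum, ← Finset.add_sum_erase D _ hd0] at k3
      have hne : term d0 k ≠ 0 := mul_ne_zero (mul_ne_zero (hc d0 hd0) (pow_ne_zero _ k1))
        (pow_ne_zero _ k2)
      rw [← Finset.sum_div, div_eq_iff hne]
      simp only [hterm]
      linear_combination k3
    have hs2 : Tendsto (fun _ : ℕ => (-1 : ℂ)) l (𝓝 0) := hs0.congr' hs1
    have hs3 := tendsto_nhds_unique hs2 tendsto_const_nhds
    norm_num at hs3
  · push Not at H
    obtain ⟨d, hd, hdω, hne⟩ := H
    have habs : ∀ z : ℝ, (z = 1 ∨ z = -1) → |z| = 1 := by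
      rintro z (rfl | rfl) <;> norm_num
    have h1 : e' * (((d0.2 : ℝ) - d.2) * lam) = e * ((d.1 : ℝ) - d0.1) := by
      simp only [hω] at hdω
      linear_combination -hdω
    have h2 : |((d0.2 : ℝ) - d.2)| * lam = |((d.1 : ℝ) - d0.1)| := by
      have := congrArg (fun z : ℝ => |z|) h1
      simp only [abs_mul, habs e he, habs e' he', one_mul, abs_of_pos hlam] at this
      exact this
    have h3 : d.2 ≠ d0.2 := by
      intro h3
      apply hne
      rw [h3, sub_self, abs_zero, zero_mul] at h2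
      have h4 := abs_eq_zero.mp h2.symm
      have h5 : d.1 = d0.1 := by
        have : (d.1 : ℝ) = d0.1 := by linarith
        exact_mod_cast this
      exact Prod.ext h5 h3
    have h4 : ((((d0.2 : ℤ) - d.2).natAbs : ℕ) : ℝ) = |((d0.2 : ℝ) - d.2)| := by
      rw [Nat.cast_natAbs]
      push_cast
      rfl
    have h5 : ((((d.1 : ℤ) - d0.1).natAbs : ℕ) : ℝ) = |((d.1 : ℝ) - d0.1)| := by
      rw [Nat.cast_natAbs]
      push_cast
      rfl
    have h6 : 0 < ((d0.2 : ℤ) - d.2).natAbs := by omega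
    have h7 : (0 : ℝ) < ((((d0.2 : ℤ) - d.2).natAbs : ℕ) : ℝ) := by exact_mod_cast h6
    refine ⟨((d.1 : ℤ) - d0.1).natAbs, ((d0.2 : ℤ) - d.2).natAbs, ?_, h6, ?_⟩
    · have h8 : (0 : ℝ) < ((((d.1 : ℤ) - d0.1).natAbs : ℕ) : ℝ) := by
        rw [h5, ← h2, ← h4]
        positivity
      exact_mod_cast h8
    · rw [eq_div_iff h7.ne', h4, h5, mul_comm]
      exact h2

/-- a translated polynomial -/
theorem exists_shift (T : Polynomial (Polynomial ℂ)) (hT : T ≠ 0) (A B : ℂ) :
    ∃ R : Polynomial (Polynomial ℂ), R ≠ 0 ∧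
      ∀ x w : ℂ, R.evalEval x w = T.evalEval (x + A) (w + B) := by
  set R : Polynomial (Polynomial ℂ) :=
    (T.map (Polynomial.compRingHom (Polynomial.X + Polynomial.C A))).comp
      (Polynomial.X + Polynomial.C (Polynomial.C B)) with hRdef
  have key : ∀ x w : ℂ, R.evalEval x w = T.evalEval (x + A) (w + B) := by
    intro x w
    rw [hRdef]
    unfold Polynomial.evalEval
    rw [Polynomial.eval_comp]
    have h1 : (Polynomial.X + Polynomial.C (Polynomial.C B) : Polynomial (Polynomial ℂ)).eval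
        (Polynomial.C w) = Polynomial.C (w + B) := by simp
    rw [h1, Polynomial.eval_map, Polynomial.eval₂_eq_sum_range,
      Polynomial.eval_eq_sum_range (p := T), Polynomial.eval_finsetSum, Polynomial.eval_finsetSum]
    refine Finset.sum_congr rfl fun j _ => ?_
    simp [Polynomial.eval_comp]
  refine ⟨R, ?_, key⟩
  intro h0
  apply hT
  refine evalEval_zero T fun x w => ?_
  have := key (x - A) (w - B)
  rw [sub_add_cancel, sub_add_cancel, h0] at this
  rw [← this]
  simp [Polynomial.evalEval]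

end Pool.Agent.Work.MP_7da6af_nt.Rc
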