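import Pool.Agent.Work.MP_7da6af_nt.Rc.Newton

/-! # Opposite cusps -/

set_option autoImplicit false

namespace Pool.Agent.Work.MP_7da6af_nt.Rc

open Filter Topology ComplexConjugate

variable {m : ℕ}

/-- a multiple of a sequence tending to infinity is bounded only if the factor is zero -/
theorem eq_zero_of_bdd (l : Ultrafilter ℕ) (τ : ℕ → ℝ) (hτ : Tendsto τ l atBot) (D K' : ℝ)
    (hD : ∀ᶠ k in (l : Filter ℕ), |D * τ k| ≤ K') : D = 0 := by
  by_contra hD0
  have h3 : ∀ᶠ k in (l : Filter ℕ), τ k ≤ -(|K'| + 1) / |D| := hτ.eventually_le_atBot _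
  obtain ⟨k, h4, h5⟩ := (hD.and h3).exists
  have hDp : 0 < |D| := abs_pos.mpr hD0
  rw [abs_mul] at h4
  have h6 : (|K'| + 1) / |D| ≤ |τ k| := by
    have h7 := neg_le_abs (τ k)
    rw [neg_div] at h5
    linarith
  rw [div_le_iff₀ hDp] at h6
  linarith [le_abs_self K']

theorem bdd_of_tendsto (l : Ultrafilter ℕ) (f : ℕ → ℝ) (c : ℝ) (h : Tendsto f l (𝓝 c)) :
    ∀ᶠ k in (l : Filter ℕ), |f k| ≤ |c| + 1 := by
  have h1 := h.abs
  exact (h1.eventually_lt_const (lt_add_one _)).mono fun k hk => hk.le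

/-- If the values of `HH a P` and `HH a Q` are constant on a set of points which accumulates, then
the exponents at the cusps come in opposite pairs. -/
theorem opp (a : Fin m → ℂ) (ha : Function.Injective a) (P Q : Fin m → ℝ)
    (hPQ : ∃ i j, P i * Q j - Q i * P j ≠ 0) (y0 : ℂ) (hy0 : ∀ i, y0 ≠ a i) (cP cQ : ℝ)
    (hacc : ∃ᶠ y in 𝓝[≠] y0, HH a P y = cP ∧ HH a Q y = cQ) (o : Option (Fin m)) :
    (cv P o = 0 ∧ cv Q o = 0) ∨ ∃ (o' : Option (Fin m)) (p q : ℕ), 0 < p ∧ 0 < q ∧
      (q : ℝ) * cv P o' + p * cv P o = 0 ∧ (q : ℝ) * cv Q o' + p * cv Q o = 0 := by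
  obtain ⟨T, Θ, K, hT, hΘ, h⟩ := exists_partner a ha P Q hPQ y0 hy0 cP cQ hacc
  obtain ⟨y, hy1, hy2, hy3, hy4⟩ := exists_approach a ha o Θ hΘ
  have h' : ∀ k, ∃ η, T.evalEval (y k) η = 0 ∧ (∀ i, η ≠ conj (a i)) ∧
      |HH a P (y k) + HH (fun i => conj (a i)) P η| ≤ K ∧
      |HH a Q (y k) + HH (fun i => conj (a i)) Q η| ≤ K := fun k => (h (y k) (hy1 k)).2
  choose η hη1 hη2 hη3 hη4 using h'
  by_cases hcv : cv P o = 0 ∧ cv Q o = 0
  · exact Or.inl hcv
  set v : ℕ → ℂ := fun k => conj (η k) with hv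
  have hva : ∀ k i, v k ≠ a i := by
    intro k i h0
    apply hη2 k i
    rw [← h0, hv]
    simp
  set l : Ultrafilter ℕ := Ultrafilter.of atTop with hl
  have hle : (l : Filter ℕ) ≤ atTop := Ultrafilter.of_le _
  have hσ : Tendsto (fun k => loc a o (y k)) l atBot := hy2.mono_left hle
  have hPv : ∀ k, |HH a P (y k) + HH a P (v k)| ≤ K := by
    intro k
    have := hη3 k
    rwa [HH_conj_seq] at this
  have hQv : ∀ k, |HH a Q (y k) + HH a Q (v k)| ≤ K := by
    intro k
    have := hη4 k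
    rwa [HH_conj_seq] at this
  rcases trichotomy a ha l v hva with ⟨o', ho1, ho2, ho3⟩ | hB
  · have bd : ∀ R : Fin m → ℝ, (∀ k, |HH a R (y k) + HH a R (v k)| ≤ K) → ∃ K' : ℝ,
        ∀ᶠ k in (l : Filter ℕ), |cv R o * loc a o (y k) + cv R o' * loc a o' (v k)| ≤ K' := by
      intro R hR
      obtain ⟨c1, hc1⟩ := hy4 R
      obtain ⟨c2, hc2⟩ := ho3 R
      refine ⟨K + (|c1| + 1) + (|c2| + 1), ?_⟩
      filter_upwards [bdd_of_tendsto l _ c1 (hc1.mono_left hle), bdd_of_tendsto l _ c2 hc2] with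
        k k1 k2
      have e : cv R o * loc a o (y k) + cv R o' * loc a o' (v k) =
          (HH a R (y k) + HH a R (v k)) - (HH a R (y k) - cv R o * loc a o (y k)) -
            (HH a R (v k) - cv R o' * loc a o' (v k)) := by ring
      rw [e]
      refine (abs_sub _ _).trans (add_le_add ((abs_sub _ _).trans (add_le_add (hR k) k1)) k2)
    obtain ⟨K1, hK1⟩ := bd P hPv
    obtain ⟨K2, hK2⟩ := bd Q hQv
    obtain ⟨lam, hlam, hw1, hw2, hq⟩ := compare l _ _ hσ ho1 (cv P o) (cv Q o) (cv P o') (cv Q o')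
      (max K1 K2) hcv (hK1.mono fun k hk => hk.trans (le_max_left _ _))
      (hK2.mono fun k hk => hk.trans (le_max_right _ _))
    obtain ⟨R, hR, hRe⟩ := exists_shift T hT (org a o) (conj (org a o'))
    obtain ⟨p, q, hp, hq0, hpq⟩ := newton l R hR (fun k => y k - org a o)
      (fun k => η k - conj (org a o')) (fun k => loc a o (y k)) (fun k => loc a o' (v k))
      (eps o) (eps o') (eps_ne o) (eps_ne o') (Eventually.of_forall fun k => by
        rw [hRe, sub_add_cancel, sub_add_cancel]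
        exact hη1 k)
      ((hy3.filter_mono hle).mono fun k hk => sub_ne_zero.mpr hk)
      (ho2.mono fun k hk => by
        intro h0
        apply hk
        rw [sub_eq_zero] at h0
        rw [hv]
        simp only [h0, Complex.conj_conj])
      (fun k => log_org a o (y k))
      (fun k => by
        rw [← log_org a o' (v k)]
        congr 1
        rw [← Complex.norm_conj, map_sub, Complex.conj_conj])
      hσ lam⁻¹ (inv_pos.mpr hlam) hq
    refine Or.inr ⟨o', q, p, hq0, hp, ?_, ?_⟩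
    · have hp' : (p : ℝ) ≠ 0 := by exact_mod_cast hp.ne'
      have hq' : (q : ℝ) ≠ 0 := by exact_mod_cast hq0.ne'
      have h5 : lam = q / p := by
        rw [← inv_inv lam, hpq, inv_div]
      rw [hw1, h5]
      field_simp
      ring
    · have hp' : (p : ℝ) ≠ 0 := by exact_mod_cast hp.ne'
      have hq' : (q : ℝ) ≠ 0 := by exact_mod_cast hq0.ne'
      have h5 : lam = q / p := by
        rw [← inv_inv lam, hpq, inv_div]
      rw [hw2, h5]
      field_simp
      ring
  · left
    have bd : ∀ R : Fin m → ℝ, (∀ k, |HH a R (y k) + HH a R (v k)| ≤ K) → cv R o = 0 := by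
      intro R hR
      obtain ⟨c1, hc1⟩ := hy4 R
      obtain ⟨c2, hc2⟩ := hB R
      refine eq_zero_of_bdd l _ hσ (cv R o) (K + (|c1| + 1) + (|c2| + 1)) ?_
      filter_upwards [bdd_of_tendsto l _ c1 (hc1.mono_left hle), bdd_of_tendsto l _ c2 hc2] with
        k k1 k2
      have e : cv R o * loc a o (y k) =
          (HH a R (y k) + HH a R (v k)) - (HH a R (y k) - cv R o * loc a o (y k)) -
            HH a R (v k) := by ring
      rw [e]
      exact (abs_sub _ _).trans (add_le_add ((abs_sub _ _).trans (add_le_add (hR k) k1)) k2)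
    exact ⟨bd P hPv, bd Q hQv⟩

end Pool.Agent.Work.MP_7da6af_nt.Rc
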