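import Pool.Agent.Work.MP_7da6af_nt.Rc.Opp
import Pool.Agent.Work.MP_7da6af_nt.Rc.Lin
import Pool.Agent.Work.MP_7da6af_nt.Rat2.Defs

/-! # Condition (*) for rational curves with asymmetric cusps -/

set_option autoImplicit false

namespace Pool.Agent.Work.MP_7da6af_nt.Rc

open Filter Topology ComplexConjugate

open Pool.Agent.Work.MP_7da6af_nt.Rat2 (F lv ex)

variable {s ν : ℕ}

/-- modulo the common kernel of two independent real linear forms `p` and `q`, the vectors at the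
cusps do not come in pairs with a positive rational combination zero -/
def AsymQ (n : Fin s → Fin ν → ℤ) : Prop :=
  ∀ p q : Fin ν → ℝ, LinearIndependent ℝ ![p, q] → ∃ i : Option (Fin s),
    ∀ (j : Option (Fin s)) (x y : ℕ), 0 < x → 0 < y →
      ¬ ((x : ℝ) * lv n p i + y * lv n p j = 0 ∧ (x : ℝ) * lv n q i + y * lv n q j = 0)

theorem cv_eq (n : Fin s → Fin ν → ℤ) (p : Fin ν → ℝ) (o : Option (Fin s)) :
    cv (fun i => ∑ l, p l * (n i l : ℝ)) o = lv n p o := by
  cases o with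
  | some i => rfl
  | none =>
    show -∑ i, ∑ l, p l * (n i l : ℝ) = ∑ l, p l * (Rat2.cv n none l : ℝ)
    rw [Finset.sum_comm, ← Finset.sum_neg_distrib]
    refine Finset.sum_congr rfl fun l _ => ?_
    rw [Rat2.cv_none]
    push_cast
    rw [← Finset.mul_sum]
    ring

theorem log_F (a : Fin s → ℂ) (n : Fin s → Fin ν → ℤ) (c : Fin ν → ℂ) (hc : ∀ l, c l ≠ 0)
    (y : ℂ) (hy : ∀ i, y ≠ a i) (l : Fin ν) :
    Real.log ‖F a n c y l‖ = Real.log ‖c l‖ + HH a (fun i => (n i l : ℝ)) y := by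
  unfold F HH
  have h1 : ∀ i, ‖(y - a i) ^ n i l‖ ≠ 0 := fun i =>
    norm_ne_zero_iff.mpr (zpow_ne_zero _ (sub_ne_zero.mpr (hy i)))
  rw [norm_mul, norm_prod, Real.log_mul (norm_ne_zero_iff.mpr (hc l))
    (Finset.prod_ne_zero_iff.mpr fun i _ => h1 i), Real.log_prod fun i _ => h1 i]
  congr 1
  refine Finset.sum_congr rfl fun i _ => ?_
  rw [norm_zpow, Real.log_zpow]

theorem form_log_F (a : Fin s → ℂ) (n : Fin s → Fin ν → ℤ) (c : Fin ν → ℂ) (hc : ∀ l, c l ≠ 0)
    (p : Fin ν → ℝ) (y : ℂ) (hy : ∀ i, y ≠ a i) :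
    ∑ l, p l * Real.log ‖F a n c y l‖ = ∑ l, p l * Real.log ‖c l‖ +
      HH a (fun i => ∑ l, p l * (n i l : ℝ)) y := by
  simp only [log_F a n c hc y hy, mul_add, Finset.sum_add_distrib]
  congr 1
  unfold HH
  simp only [Finset.mul_sum, Finset.sum_mul]
  rw [Finset.sum_comm]
  refine Finset.sum_congr rfl fun i _ => Finset.sum_congr rfl fun l _ => ?_
  ring

theorem star_param (a : Fin s → ℂ) (ha : Function.Injective a) (n : Fin s → Fin ν → ℤ)
    (hn : ∀ j, Rat2.cv n j ≠ 0) (hinj : ∀ x : Fin ν → ℤ, (∀ i, ∑ l, x l * n i l = 0) → x = 0)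
    (hasym : AsymQ n) (c : Fin ν → ℂ)
    (hc : ∀ l, c l ≠ 0) (p q : Fin ν → ℝ) (hpq : LinearIndependent ℝ ![p, q]) (S : ℝ) :
    {y : ℂ | (∀ i, y ≠ a i) ∧ (∀ l, |Real.log ‖F a n c y l‖| ≤ S) ∧
      ∑ l, p l * Real.log ‖F a n c y l‖ = 0 ∧ ∑ l, q l * Real.log ‖F a n c y l‖ = 0}.Finite := by
  by_contra hinf
  set Y : Set ℂ := {y : ℂ | (∀ i, y ≠ a i) ∧ (∀ l, |Real.log ‖F a n c y l‖| ≤ S) ∧
      ∑ l, p l * Real.log ‖F a n c y l‖ = 0 ∧ ∑ l, q l * Real.log ‖F a n c y l‖ = 0} with hY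
  have hinf' : Y.Infinite := hinf
  set y : ℕ → ℂ := fun k => (hinf'.natEmbedding Y k : ℂ) with hydef
  have hyY : ∀ k, y k ∈ Y := fun k => (hinf'.natEmbedding Y k).2
  have hyinj : Function.Injective y := fun k k' h =>
    (hinf'.natEmbedding Y).injective (Subtype.ext h)
  set l : Ultrafilter ℕ := hyperfilter ℕ with hl
  rcases trichotomy0 a ha l y (fun k => (hyY k).1) with ⟨o, ho1, ho2, ho3⟩ | ⟨x, hx1, hx2⟩
  · apply hn o
    funext j
    obtain ⟨c1, hc1⟩ := ho3 (fun i => (n i j : ℝ))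
    have h1 : cv (fun i => (n i j : ℝ)) o = 0 := by
      refine eq_zero_of_bdd l _ ho1 _ (S + |Real.log ‖c j‖| + (|c1| + 1)) ?_
      filter_upwards [bdd_of_tendsto l _ c1 hc1] with k k1
      have h2 := log_F a n c hc (y k) (hyY k).1 j
      have h3 := (hyY k).2.1 j
      have e : cv (fun i => (n i j : ℝ)) o * loc a o (y k) =
          Real.log ‖F a n c (y k) j‖ - Real.log ‖c j‖ -
            (HH a (fun i => (n i j : ℝ)) (y k) -
              cv (fun i => (n i j : ℝ)) o * loc a o (y k)) := by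
        rw [h2]
        ring
      rw [e]
      exact (abs_sub _ _).trans (add_le_add ((abs_sub _ _).trans (add_le_add h3 le_rfl)) k1)
    have h2 : (Rat2.cv n o j : ℝ) = cv (fun i => (n i j : ℝ)) o := by
      cases o with
      | some i => rfl
      | none =>
        rw [Rat2.cv_none]
        push_cast
        rfl
    rw [Pi.zero_apply]
    rw [← h2] at h1
    exact_mod_cast h1
  · have hne : ∀ᶠ k in (l : Filter ℕ), y k ≠ x := by
      have h1 : {k | y k = x}.Finite := by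
        refine Set.Subsingleton.finite ?_
        intro k hk k' hk'
        exact hyinj (hk.trans hk'.symm)
      have h2 := h1.compl_mem_hyperfilter
      exact h2
    have ht : Tendsto y l (𝓝[≠] x) := by
      rw [tendsto_nhdsWithin_iff]
      exact ⟨hx2, hne⟩
    set P : Fin s → ℝ := fun i => ∑ l, p l * (n i l : ℝ) with hP
    set Q : Fin s → ℝ := fun i => ∑ l, q l * (n i l : ℝ) with hQ
    have hfr : ∃ᶠ z in 𝓝[≠] x, HH a P z = -∑ l, p l * Real.log ‖c l‖ ∧
        HH a Q z = -∑ l, q l * Real.log ‖c l‖ := by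
      refine ht.frequently (Eventually.frequently (Eventually.of_forall fun k => ?_))
      obtain ⟨h1, h2, h3, h4⟩ := hyY k
      rw [form_log_F a n c hc _ (y k) h1] at h3 h4
      exact ⟨by linarith, by linarith⟩
    obtain ⟨i, hi⟩ := hasym p q hpq
    have hmin := exists_minor n hinj p q hpq
    rcases opp a ha P Q hmin x hx1 _ _ hfr i with ⟨h1, h2⟩ | ⟨o', x', y', hx', hy', h1, h2⟩
    · rw [hP, cv_eq] at h1
      rw [hQ, cv_eq] at h2
      exact hi i 1 1 one_pos one_pos ⟨by rw [h1]; ring, by rw [h2]; ring⟩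
    · rw [hP, cv_eq, cv_eq] at h1
      rw [hQ, cv_eq, cv_eq] at h2
      exact hi o' x' y' hx' hy' ⟨by linarith, by linarith⟩

end Pool.Agent.Work.MP_7da6af_nt.Rc
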