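import Pool.Agent.Work.MP_7da6af_nt.Rc.Param

/-! # Transversality of rational curves with asymmetric cusps -/

set_option autoImplicit false

namespace Pool.Agent.Work.MP_7da6af_nt.Rc

open Pool.Agent.Work.MP_7da6af_nt.Rat2 (F lv ex)

variable {s ν : ℕ}

theorem inj_of_asymQ (n : Fin s → Fin ν → ℤ) (hinf : Rat2.cv n none ≠ 0) (hasym : AsymQ n)
    (κ : Fin ν → ℤ) (h0 : ∀ i, ∑ l, κ l * n i l = 0) : κ = 0 := by
  by_contra hκ
  obtain ⟨l₀, hl₀⟩ : ∃ l, κ l ≠ 0 := by
    by_contra hcon
    push Not at hcon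
    exact hκ (funext hcon)
  have hcv : ∀ j, ∑ l, κ l * Rat2.cv n j l = 0 := by
    intro j
    rw [← Rat2.cusp_ex]
    have h1 : ex n κ = 0 := funext h0
    rw [h1]
    cases j with
    | none => simp [Rat.cusp]
    | some i => rfl
  by_cases hl : ∃ l₁, l₁ ≠ l₀
  · obtain ⟨l₁, hl₁⟩ := hl
    set p : Fin ν → ℝ := fun l => (κ l : ℝ) with hp
    set q : Fin ν → ℝ := Pi.single l₁ 1 with hq
    have hpq : LinearIndependent ℝ ![p, q] := by
      rw [LinearIndependent.pair_iff]
      intro x y hxy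
      have h1 := congrFun hxy l₀
      simp only [Pi.add_apply, Pi.smul_apply, smul_eq_mul, Pi.zero_apply, hp, hq,
        Pi.single_eq_of_ne hl₁.symm, mul_zero, add_zero] at h1
      have hx : x = 0 := (mul_eq_zero.mp h1).resolve_right (by exact_mod_cast hl₀)
      have h2 := congrFun hxy l₁
      simp only [Pi.add_apply, Pi.smul_apply, smul_eq_mul, Pi.zero_apply, hp, hq, hx, zero_mul,
        zero_add, Pi.single_eq_same, mul_one] at h2
      exact ⟨hx, h2⟩
    obtain ⟨i, hop⟩ := hasym p q hpq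
    have hzero : ∀ j, lv n p j = 0 := by
      intro j
      unfold lv
      have := hcv j
      simp only [hp]
      exact_mod_cast this
    have hqv : ∀ j, lv n q j = (Rat2.cv n j l₁ : ℝ) := by
      intro j
      unfold lv
      rw [Finset.sum_eq_single l₁]
      · rw [hq, Pi.single_eq_same, one_mul]
      · intro b _ hb
        rw [hq, Pi.single_eq_of_ne hb, zero_mul]
      · intro h
        exact absurd (Finset.mem_univ _) h
    have hqi : Rat2.cv n i l₁ ≠ 0 := by
      intro h
      refine hop i 1 1 one_pos one_pos ⟨by rw [hzero]; ring, ?_⟩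
      rw [hqv, h]
      simp
    obtain ⟨j, hj⟩ : ∃ j, Rat2.cv n j l₁ * Rat2.cv n i l₁ < 0 := by
      by_contra hcon
      push Not at hcon
      have h0' : ∑ j, Rat2.cv n j l₁ = 0 := by
        have h2 := Rat2.sum_lv n q
        simp only [hqv] at h2
        exact_mod_cast h2
      have h1 : ∑ j, Rat2.cv n j l₁ * Rat2.cv n i l₁ = 0 := by
        rw [← Finset.sum_mul, h0', zero_mul]
      have h2 := (Finset.sum_eq_zero_iff_of_nonneg fun j _ => hcon j).mp h1 i (Finset.mem_univ i)
      exact hqi (mul_self_eq_zero.mp h2)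
    obtain ⟨A, hA⟩ : ∃ A : ℤ, Rat2.cv n i l₁ = A := ⟨_, rfl⟩
    obtain ⟨B, hB⟩ : ∃ B : ℤ, Rat2.cv n j l₁ = B := ⟨_, rfl⟩
    rw [hA, hB] at hj
    rw [hA] at hqi
    have hB0 : B ≠ 0 := by
      rintro rfl
      simp at hj
    refine hop j B.natAbs A.natAbs (Int.natAbs_pos.mpr hB0) (Int.natAbs_pos.mpr hqi) ⟨?_, ?_⟩
    · rw [hzero, hzero]
      ring
    · rw [hqv, hqv, hA, hB]
      have h3 : ((B.natAbs : ℤ)) * A + (A.natAbs : ℤ) * B = 0 := by
        rw [Int.natCast_natAbs, Int.natCast_natAbs]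
        rcases lt_or_gt_of_ne hqi with h4 | h4
        · have h5 : 0 < B := by
            by_contra h5
            push Not at h5
            nlinarith
          rw [abs_of_neg h4, abs_of_pos h5]
          ring
        · have h5 : B < 0 := by
            by_contra h5
            push Not at h5
            nlinarith
          rw [abs_of_pos h4, abs_of_neg h5]
          ring
      have h4 := congrArg (fun z : ℤ => (z : ℝ)) h3
      simp only [Int.cast_add, Int.cast_mul, Int.cast_natCast, Int.cast_zero] at h4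
      exact h4
  · push Not at hl
    apply hinf
    funext l
    have h1 := hcv none
    rw [Finset.sum_eq_single l₀ (fun b _ hb => absurd (hl b) hb)
      (fun h => absurd (Finset.mem_univ _) h)] at h1
    rw [hl l]
    exact (mul_eq_zero.mp h1).resolve_left hl₀

theorem star_param' (a : Fin s → ℂ) (ha : Function.Injective a) (n : Fin s → Fin ν → ℤ)
    (hn : ∀ j, Rat2.cv n j ≠ 0) (hasym : AsymQ n) (c : Fin ν → ℂ)
    (hc : ∀ l, c l ≠ 0) (p q : Fin ν → ℝ) (hpq : LinearIndependent ℝ ![p, q]) (S : ℝ) :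
    {y : ℂ | (∀ i, y ≠ a i) ∧ (∀ l, |Real.log ‖F a n c y l‖| ≤ S) ∧
      ∑ l, p l * Real.log ‖F a n c y l‖ = 0 ∧ ∑ l, q l * Real.log ‖F a n c y l‖ = 0}.Finite :=
  star_param a ha n hn (inj_of_asymQ n (hn none) hasym) hasym c hc p q hpq S

end Pool.Agent.Work.MP_7da6af_nt.Rc
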